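import Mathlib

/-!
# A counting lemma for linear spaces
-/

set_option autoImplicit false

namespace Pool.Agent.J4H13.LA

open Finset

/-- the weight of a block -/
def wt (r : ℕ) : ℕ := if Even r then 1 else 2

lemma wt_pos (r : ℕ) : 1 ≤ wt r := by
  unfold wt
  split_ifs <;> omega

lemma wt_ineq (r : ℕ) (hr : 2 ≤ r) : 8 * (r / 2).choose 2 + wt r * r ≤ r * (r - 1) := by
  unfold wt
  obtain ⟨k, hk⟩ := Nat.even_or_odd' r
  have hch : ∀ k : ℕ, 2 * k.choose 2 = k * (k - 1) := by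
    intro k
    rw [Nat.choose_two_right]
    exact Nat.two_mul_div_two_of_even (Nat.even_mul_pred_self k)
  rcases hk with rfl | rfl
  · rw [if_pos (even_two_mul k), Nat.mul_div_cancel_left _ two_pos]
    have h1 := hch k
    obtain ⟨m, rfl⟩ : ∃ m, k = m + 1 := ⟨k - 1, by omega⟩
    have h2 : 2 * (m + 1) - 1 = 2 * m + 1 := by omega
    rw [h2]
    rw [Nat.add_sub_cancel] at h1
    nlinarith
  · rw [if_neg (by simp)]
    have h0 : (2 * k + 1) / 2 = k := by omega
    rw [h0]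
    have h1 := hch k
    obtain ⟨m, rfl⟩ : ∃ m, k = m + 1 := ⟨k - 1, by omega⟩
    rw [Nat.add_sub_cancel] at h1 ⊢
    nlinarith

variable {n : ℕ}

/-- Two distinct lines are in exactly one block. -/
def IsLS (Φ : Finset (Finset (Fin n))) : Prop :=
  (∀ F ∈ Φ, 2 ≤ F.card) ∧ (∀ i j, i ≠ j → ∃ F ∈ Φ, i ∈ F ∧ j ∈ F) ∧
    ∀ F ∈ Φ, ∀ F' ∈ Φ, ∀ i j, i ≠ j → i ∈ F → j ∈ F → i ∈ F' → j ∈ F' → F = F'

lemma IsLS.card_through {Φ : Finset (Finset (Fin n))} (h : IsLS Φ) (i : Fin n) :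
    ∑ F ∈ Φ.filter (fun F => i ∈ F), (F.card - 1) = n - 1 := by
  classical
  have h1 : (Finset.univ.erase i : Finset (Fin n)).card = n - 1 := by
    rw [Finset.card_erase_of_mem (Finset.mem_univ i), Finset.card_univ, Fintype.card_fin]
  have h2 : (Finset.univ.erase i : Finset (Fin n)) =
      (Φ.filter (fun F => i ∈ F)).biUnion (fun F => F.erase i) := by
    ext j
    rw [Finset.mem_biUnion, Finset.mem_erase]
    constructor
    · rintro ⟨hj, -⟩
      obtain ⟨F, hF, hiF, hjF⟩ := h.2.1 i j (Ne.symm hj)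
      exact ⟨F, Finset.mem_filter.2 ⟨hF, hiF⟩, Finset.mem_erase.2 ⟨hj, hjF⟩⟩
    · rintro ⟨F, -, hjF⟩
      exact ⟨(Finset.mem_erase.1 hjF).1, Finset.mem_univ j⟩
  rw [← h1, h2, Finset.card_biUnion]
  · refine Finset.sum_congr rfl fun F hF => ?_
    rw [Finset.card_erase_of_mem (Finset.mem_filter.1 hF).2]
  · intro F hF F' hF' hne
    rw [Function.onFun, Finset.disjoint_left]
    intro j hj hj'
    apply hne
    rw [Finset.mem_coe, Finset.mem_filter] at hF hF'
    rw [Finset.mem_erase] at hj hj'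
    exact h.2.2 F hF.1 F' hF'.1 j i hj.1 hj.2 hF.2 hj'.2 hF'.2

lemma IsLS.card_pairs {Φ : Finset (Finset (Fin n))} (h : IsLS Φ) :
    ∑ F ∈ Φ, F.card * (F.card - 1) = n * (n - 1) := by
  classical
  have h1 : ∀ F ∈ Φ, F.card * (F.card - 1) = ∑ i : Fin n, if i ∈ F then F.card - 1 else 0 := by
    intro F _
    rw [← Finset.sum_filter, Finset.sum_const, smul_eq_mul]
    congr 2
    ext i
    simp
  rw [Finset.sum_congr rfl h1, Finset.sum_comm]
  have h2 : ∀ i : Fin n, (∑ F ∈ Φ, if i ∈ F then F.card - 1 else 0) = n - 1 := by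
    intro i
    rw [← h.card_through i, Finset.sum_filter]
  rw [Finset.sum_congr rfl fun i _ => h2 i, Finset.sum_const, Finset.card_univ, Fintype.card_fin,
    smul_eq_mul]

lemma IsLS.four_le {Φ : Finset (Finset (Fin n))} (h : IsLS Φ) {i : Fin n} {F₀ : Finset (Fin n)}
    (hF₀ : F₀ ∈ Φ) (hi : i ∉ F₀) (h4 : 4 ≤ F₀.card) :
    4 ≤ (Φ.filter (fun F => i ∈ F)).card := by
  classical
  have h1 : ∀ j ∈ F₀, ∃ F ∈ Φ, i ∈ F ∧ j ∈ F := by
    intro j hj
    exact h.2.1 i j (fun hij => hi (by rw [hij]; exact hj))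
  choose! f hf hif hjf using h1
  refine h4.trans (Finset.card_le_card_of_injOn f ?_ ?_)
  · intro j hj
    rw [Finset.mem_coe, Finset.mem_filter]
    exact ⟨hf j hj, hif j hj⟩
  · intro j hj j' hj' hjj
    by_contra hne
    have h2 := h.2.2 (f j) (hf j hj) F₀ hF₀ j j' hne (hjf j hj) (by rw [hjj]; exact hjf j' hj') hj hj'
    apply hi
    rw [← h2]
    exact hif j hj

lemma IsLS.five_le {d : ℕ} {Φ : Finset (Finset (Fin (2 * d)))} (h : IsLS Φ) {i : Fin (2 * d)}
    {F₀ : Finset (Fin (2 * d))} (hF₀ : F₀ ∈ Φ) (hi : i ∉ F₀) (h4 : 4 ≤ F₀.card) :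
    5 ≤ ∑ F ∈ Φ.filter (fun F => i ∈ F), wt F.card := by
  classical
  have h5 := h.four_le hF₀ hi h4
  have h6 : (Φ.filter (fun F => i ∈ F)).card ≤ ∑ F ∈ Φ.filter (fun F => i ∈ F), wt F.card := by
    rw [Finset.card_eq_sum_ones]
    exact Finset.sum_le_sum fun F _ => wt_pos _
  by_cases hodd : ∃ F ∈ Φ.filter (fun F => i ∈ F), ¬ Even F.card
  · obtain ⟨F, hF, hFo⟩ := hodd
    rw [← Finset.add_sum_erase _ _ hF]
    have h7 : wt F.card = 2 := by
      unfold wt
      rw [if_neg hFo]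
    have h8 : ((Φ.filter (fun F => i ∈ F)).erase F).card ≤
        ∑ F ∈ (Φ.filter (fun F => i ∈ F)).erase F, wt F.card := by
      rw [Finset.card_eq_sum_ones]
      exact Finset.sum_le_sum fun F _ => wt_pos _
    rw [Finset.card_erase_of_mem hF] at h8
    omega
  · push Not at hodd
    by_contra hcon
    have h7 : (Φ.filter (fun F => i ∈ F)).card = 4 := by omega
    have h8 := h.card_through i
    have h9 : ∑ F ∈ Φ.filter (fun F => i ∈ F), F.card =
        (2 * d - 1) + 4 := by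
      rw [← h8, ← h7, Finset.card_eq_sum_ones, ← Finset.sum_add_distrib]
      refine Finset.sum_congr rfl fun F hF => ?_
      have := h.1 F (Finset.mem_filter.1 hF).1
      omega
    have h10 : Even (∑ F ∈ Φ.filter (fun F => i ∈ F), F.card) :=
      Finset.even_sum _ hodd
    have h11 : 0 < 2 * d := lt_of_le_of_lt (Nat.zero_le _) i.2
    rw [h9] at h10
    obtain ⟨m, hm⟩ := h10
    omega

/-- **The counting lemma.** -/
theorem IsLS.count {d : ℕ} {Φ : Finset (Finset (Fin (2 * d)))} (h : IsLS Φ) (hd : 3 ≤ d)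
    (hno : ∀ i, ∃ F ∈ Φ, i ∉ F ∧ 4 ≤ F.card) :
    ∑ F ∈ Φ, (F.card / 2).choose 2 < (d - 1).choose 2 := by
  classical
  have h1 : 5 * (2 * d) ≤ ∑ F ∈ Φ, wt F.card * F.card := by
    have h2 : ∀ F ∈ Φ, wt F.card * F.card = ∑ i : Fin (2 * d), if i ∈ F then wt F.card else 0 := by
      intro F _
      rw [← Finset.sum_filter, Finset.sum_const, smul_eq_mul, mul_comm]
      congr 2
      ext i
      simp
    rw [Finset.sum_congr rfl h2, Finset.sum_comm]
    have h3 : ∀ i : Fin (2 * d), 5 ≤ (∑ F ∈ Φ, if i ∈ F then wt F.card else 0) := by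
      intro i
      obtain ⟨F₀, hF₀, hi, h4⟩ := hno i
      rw [← Finset.sum_filter]
      exact h.five_le hF₀ hi h4
    calc 5 * (2 * d) = ∑ i : Fin (2 * d), 5 := by
          rw [Finset.sum_const, Finset.card_univ, Fintype.card_fin, smul_eq_mul, mul_comm]
      _ ≤ _ := Finset.sum_le_sum fun i _ => h3 i
  have h4 : 8 * ∑ F ∈ Φ, (F.card / 2).choose 2 + ∑ F ∈ Φ, wt F.card * F.card ≤
      2 * d * (2 * d - 1) := by
    rw [← h.card_pairs, Finset.mul_sum, ← Finset.sum_add_distrib]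
    exact Finset.sum_le_sum fun F hF => wt_ineq _ (h.1 F hF)
  have h5 : 2 * (d - 1).choose 2 = (d - 1) * (d - 1 - 1) := by
    rw [Nat.choose_two_right]
    exact Nat.two_mul_div_two_of_even (Nat.even_mul_pred_self _)
  obtain ⟨m, rfl⟩ : ∃ m, d = m + 3 := ⟨d - 3, by omega⟩
  have h6 : m + 3 - 1 = m + 2 := by omega
  have h7 : m + 2 - 1 = m + 1 := by omega
  have h8 : 2 * (m + 3) - 1 = 2 * m + 5 := by omega
  rw [h6, h7] at h5
  rw [h8] at h4
  rw [h6]
  nlinarith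

end Pool.Agent.J4H13.LA
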