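import Pool.Agent.W602.GT.Defs

/-!
# Definitions: the geometric genus and the irregularity are zero

`K` is the function field of a surface over `ℂ`. Regularity of a differential form at all
prime divisors of all normal models of `K` is the same as regularity on a smooth projective model.
-/

set_option autoImplicit false

open FF

namespace Pool.Agent.J4H13.LA

open Pool.Agent.W602.GT

/-- `p_g = 0`: the only 2-form which is regular at all prime divisors is `0`. -/
def PgZero (K : Type) [Field K] [Algebra ℂ K] : Prop :=
  ∀ ω : (Fin 2 → Derivation ℂ K K) → K, IsPluri 1 ω →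
    (∀ P : Place ℂ K, Divisorial 2 P → RegAt P ω) → ∀ D, ω D = 0

/-- `q = 0`: the only 1-form which is regular at all prime divisors is `0`. -/
def QZero (K : Type) [Field K] [Algebra ℂ K] : Prop :=
  ∀ η : Derivation ℂ K K →ₗ[K] K,
    (∀ P : Place ℂ K, Divisorial 2 P → ∀ D, DerReg P D → P.Reg (η D)) → ∀ D, η D = 0

end Pool.Agent.J4H13.LA
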