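import Pool.Agent.J4H13.LA.Rat
import Pool.Agent.J4H13.LA.Defs

/-!
# Consequences of `p_g = 0` and `q = 0`
-/

set_option autoImplicit false

open FF

namespace Pool.Agent.J4H13.LA

open Pool.Agent.J4H13.BC Pool.Agent.W602.GT Pool.Agent.W603.LV

variable {K : Type} [Field K] [Algebra ℂ K]

lemma exists_ders {x y : K} (hxy : AlgebraicIndependent ℂ ![x, y]) :
    ∃ D : Fin 2 → Derivation ℂ K K, D 0 x = 1 ∧ D 0 y = 0 ∧ D 1 x = 0 ∧ D 1 y = 1 := by
  obtain ⟨D, h1, h2⟩ := H693RF.RG.exists_dual_derivations (𝕜 := ℂ) ![x, y] hxy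
  exact ⟨D, h1 0, h2 0 1 (by decide), h2 1 0 (by decide), h1 1⟩

lemma aeval_gp_ne_zero {x y : K} (hxy : AlgebraicIndependent ℂ ![x, y]) {e : ℕ} {Q : P3}
    (hQ : Q.IsHomogeneous e) (hQ0 : Q ≠ 0) : MvPolynomial.aeval (gp x y) Q ≠ 0 := by
  intro h
  apply hQ0
  -- dehomogenization
  let q : MvPolynomial (Fin 2) ℂ := MvPolynomial.aeval ![1, MvPolynomial.X 0, MvPolynomial.X 1] Q
  have h1 : MvPolynomial.aeval ![x, y] q = MvPolynomial.aeval (gp x y) Q := by
    have h2 := MvPolynomial.comp_aeval_apply (R := ℂ)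
      (![1, MvPolynomial.X 0, MvPolynomial.X 1] : Fin 3 → MvPolynomial (Fin 2) ℂ)
      (MvPolynomial.aeval ![x, y]) Q
    change MvPolynomial.aeval ![x, y] (MvPolynomial.aeval _ Q) = _
    rw [h2]
    congr 2
    funext i
    fin_cases i
    · change MvPolynomial.aeval ![x, y] 1 = 1
      rw [map_one]
    · change MvPolynomial.aeval ![x, y] (MvPolynomial.X 0) = x
      rw [MvPolynomial.aeval_X]
      rfl
    · change MvPolynomial.aeval ![x, y] (MvPolynomial.X 1) = y
      rw [MvPolynomial.aeval_X]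
      rfl
  rw [h] at h1
  have hq : q = 0 := (algebraicIndependent_iff.1 hxy) _ h1
  have h3 : MvPolynomial.X 0 * Q = 0 := by
    apply MvPolynomial.funext
    intro p
    rw [map_mul, map_zero, MvPolynomial.eval_X]
    by_cases hp : p 0 = 0
    · rw [hp, zero_mul]
    · have h4 : MvPolynomial.aeval (gp (K := ℂ) (p 1 / p 0) (p 2 / p 0)) Q = 0 := by
        have h5 := MvPolynomial.comp_aeval_apply (R := ℂ)
          (![1, MvPolynomial.X 0, MvPolynomial.X 1] : Fin 3 → MvPolynomial (Fin 2) ℂ)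
          (MvPolynomial.aeval ![p 1 / p 0, p 2 / p 0] : MvPolynomial (Fin 2) ℂ →ₐ[ℂ] ℂ) Q
        have h6 : MvPolynomial.aeval ![p 1 / p 0, p 2 / p 0] q = 0 := by rw [hq, map_zero]
        change MvPolynomial.aeval ![p 1 / p 0, p 2 / p 0] (MvPolynomial.aeval _ Q) = 0 at h6
        rw [h5] at h6
        rw [← h6]
        congr 2
        funext i
        fin_cases i
        · change 1 = MvPolynomial.aeval ![p 1 / p 0, p 2 / p 0] 1
          rw [map_one]
        · change p 1 / p 0 = MvPolynomial.aeval ![p 1 / p 0, p 2 / p 0] (MvPolynomial.X 0)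
          rw [MvPolynomial.aeval_X]
          rfl
        · change p 2 / p 0 = MvPolynomial.aeval ![p 1 / p 0, p 2 / p 0] (MvPolynomial.X 1)
          rw [MvPolynomial.aeval_X]
          rfl
      have h7 := Pool.Agent.Helper397.HK.aeval_smul_of_homog hQ (p 0)
        (gp (K := ℂ) (p 1 / p 0) (p 2 / p 0))
      rw [h4, mul_zero] at h7
      have h8 : (p 0 • gp (K := ℂ) (p 1 / p 0) (p 2 / p 0)) = p := by
        funext i
        fin_cases i
        · change p 0 * 1 = p 0
          rw [mul_one]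
        · change p 0 * (p 1 / p 0) = p 1
          field_simp
        · change p 0 * (p 2 / p 0) = p 2
          field_simp
      rw [h8] at h7
      have h9 : MvPolynomial.eval p Q = 0 := h7
      rw [h9, mul_zero]
  exact (mul_eq_zero.1 h3).resolve_left (MvPolynomial.X_ne_zero 0)

/-- **`p_g = 0` forces a point of high multiplicity.** -/
theorem exists_point (hpg : PgZero K) {x y : K} (hxy : AlgebraicIndependent ℂ ![x, y]) {d : ℕ}
    (hd : 3 ≤ d) {l : Fin (2 * d) → V3} (hl : ∀ i j, i ≠ j → LinearIndependent ℂ ![l i, l j])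
    {v : K} (hv0 : v ≠ 0) (hv : v ^ 2 = ∏ i, ev (gp x y) (l i)) :
    ∃ W : Submodule ℂ V3, Module.finrank ℂ W ≤ 2 ∧ 2 * d - 2 ≤ (thr l W).card := by
  classical
  by_contra hcon
  push Not at hcon
  obtain ⟨Q, hQ0, hQ, hmult⟩ := key hd hl (fun W hW => by
    have := hcon W hW
    omega)
  obtain ⟨ω, hω⟩ : ∃ ω : (Fin 2 → Derivation ℂ K K) → K,
    ω = fun D => wedge (D 0) (D 1) x y * (MvPolynomial.aeval (gp x y) Q / v) := ⟨_, rfl⟩
  have hpluri : IsPluri 1 ω := by
    intro A D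
    rw [hω]
    simp only [wedge, Fin.sum_univ_two, Derivation.add_apply, Derivation.smul_apply, smul_eq_mul,
      Matrix.det_fin_two, pow_one]
    ring
  obtain ⟨D, h0x, h0y, h1x, h1y⟩ := exists_ders hxy
  have h1 := hpg ω hpluri (fun P _ D hD => by
    rw [hω]
    exact reg_two hxy hd hl hv0 hv hQ hmult P (hD 0) (hD 1)) D
  rw [hω] at h1
  simp only [wedge, h0x, h0y, h1x, h1y] at h1
  have h2 : MvPolynomial.aeval (gp x y) Q / v = 0 := by
    rw [← h1]
    ring
  exact div_ne_zero (aeval_gp_ne_zero hxy hQ hQ0) hv0 h2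

/-- **`q = 0` excludes pencils.** -/
theorem no_pencil (hq : QZero K) {x y : K} (hxy : AlgebraicIndependent ℂ ![x, y]) {d : ℕ}
    (hd : 2 ≤ d) {l : Fin (2 * d) → V3} (hl : ∀ i j, i ≠ j → LinearIndependent ℂ ![l i, l j])
    {v : K} (hv0 : v ≠ 0) (hv : v ^ 2 = ∏ i, ev (gp x y) (l i)) {m₀ m₁ : V3}
    (hm : LinearIndependent ℂ ![m₀, m₁]) (hspan : ∀ i, l i ∈ Submodule.span ℂ {m₀, m₁}) :
    False := by
  classical
  choose a b hab using fun i => Submodule.mem_span_pair.1 (hspan i)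
  obtain ⟨M₀, hM₀⟩ : ∃ M₀, M₀ = ev (gp x y) m₀ := ⟨_, rfl⟩
  obtain ⟨M₁, hM₁⟩ : ∃ M₁, M₁ = ev (gp x y) m₁ := ⟨_, rfl⟩
  have hm' := LinearIndependent.pair_iff.1 hm
  have hlf : ∀ s t : ℂ, lf M₀ M₁ s t = ev (gp x y) (s • m₀ + t • m₁) := by
    intro s t
    unfold lf
    rw [ev_add, ev_smul, ev_smul, hM₀, hM₁]
  have hne : ∀ s t : ℂ, (s ≠ 0 ∨ t ≠ 0) → lf M₀ M₁ s t ≠ 0 := by
    intro s t hst
    rw [hlf]
    apply ev_gp_ne_zero hxy
    intro h
    obtain ⟨h1, h2⟩ := hm' s t h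
    rcases hst with h3 | h3
    · exact h3 h1
    · exact h3 h2
  have hdet : ∀ i j, i ≠ j → a i * b j - a j * b i ≠ 0 := by
    intro i j hij h
    have h1 := LinearIndependent.pair_iff.1 (hl i j hij)
    -- `a j l i - a i l j = (a j b i - a i b j) m₁ = 0`
    have h2 := h1 (a j) (-(a i)) (by
      rw [← hab i, ← hab j]
      have h3 : a j • (a i • m₀ + b i • m₁) + -(a i) • (a j • m₀ + b j • m₁) =
          (-(a i * b j - a j * b i)) • m₁ := by
        module
      rw [h3, h, neg_zero, zero_smul])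
    have h3 := h1 (b j) (-(b i)) (by
      rw [← hab i, ← hab j]
      have h3 : b j • (a i • m₀ + b i • m₁) + -(b i) • (a j • m₀ + b j • m₁) =
          (a i * b j - a j * b i) • m₀ := by
        module
      rw [h3, h, zero_smul])
    have h4 : l j = 0 := by
      rw [← hab j, h2.1, h3.1, zero_smul, zero_smul, add_zero]
    exact (hl i j hij).ne_zero 1 h4
  have hv' : v ^ 2 = ∏ i, lf M₀ M₁ (a i) (b i) := by
    rw [hv]
    refine Finset.prod_congr rfl fun i _ => ?_
    rw [hlf, hab]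
  obtain ⟨η, hη⟩ : ∃ η : Derivation ℂ K K →ₗ[K] K,
      ∀ D, η D = (M₀ * D M₁ - M₁ * D M₀) * (M₀ ^ (d - 2) / v) := by
    refine ⟨{ toFun := fun D => (M₀ * D M₁ - M₁ * D M₀) * (M₀ ^ (d - 2) / v)
              map_add' := fun D D' => by
                simp only [Derivation.add_apply]
                ring
              map_smul' := fun c D => by
                simp only [Derivation.smul_apply, smul_eq_mul, RingHom.id_apply]
                ring }, fun D => rfl⟩
  have h1 := hq η (fun P _ D hD => by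
    rw [hη]
    exact reg_one hne hd hdet hv0 hv' P hD)
  -- a derivation which does not kill `M₁ / M₀`
  have hM₀0 : M₀ ≠ 0 := by
    have := hne 1 0 (Or.inl one_ne_zero)
    unfold lf at this
    simpa using this
  obtain ⟨D, h0x, h0y, h1x, h1y⟩ := exists_ders hxy
  have hDev : ∀ (D : Derivation ℂ K K) (w : V3), D (ev (gp x y) w) =
      algebraMap ℂ K (w 1) * D x + algebraMap ℂ K (w 2) * D y := by
    intro D w
    rw [ev_gp, map_add, map_add, D.leibniz, D.leibniz, D.map_algebraMap, D.map_algebraMap,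
      D.map_algebraMap, smul_zero, smul_zero, add_zero, add_zero, zero_add, smul_eq_mul,
      smul_eq_mul]
  have hzero : ∀ D : Derivation ℂ K K, M₀ * D M₁ = M₁ * D M₀ := by
    intro D
    have h2 := h1 D
    rw [hη] at h2
    rcases mul_eq_zero.1 h2 with h3 | h3
    · exact sub_eq_zero.1 h3
    · exact absurd h3 (div_ne_zero (pow_ne_zero _ hM₀0) hv0)
  have hD0 := hzero (D 0)
  have hD1 := hzero (D 1)
  rw [hM₀, hM₁, hDev, hDev, h0x, h0y, mul_one, mul_zero, add_zero, mul_one, mul_zero,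
    add_zero, ← hM₀, ← hM₁] at hD0
  rw [hM₀, hM₁, hDev, hDev, h1x, h1y, mul_one, mul_zero, zero_add, mul_one, mul_zero,
    zero_add, ← hM₀, ← hM₁] at hD1
  have e0 : lf M₀ M₁ (m₁ 1) (-(m₀ 1)) = 0 := by
    unfold lf
    rw [map_neg]
    linear_combination hD0
  have e1 : lf M₀ M₁ (m₁ 2) (-(m₀ 2)) = 0 := by
    unfold lf
    rw [map_neg]
    linear_combination hD1
  have hz0 : m₁ 1 = 0 ∧ m₀ 1 = 0 := by
    by_contra hcon
    rw [not_and_or] at hcon
    exact hne _ _ (hcon.imp id (fun h => neg_ne_zero.2 h)) e0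
  have hz1 : m₁ 2 = 0 ∧ m₀ 2 = 0 := by
    by_contra hcon
    rw [not_and_or] at hcon
    exact hne _ _ (hcon.imp id (fun h => neg_ne_zero.2 h)) e1
  have h5 := hm' (m₁ 0) (-(m₀ 0)) (by
    funext i
    fin_cases i
    · change m₁ 0 * m₀ 0 + -(m₀ 0) * m₁ 0 = 0
      ring
    · change m₁ 0 * m₀ 1 + -(m₀ 0) * m₁ 1 = 0
      rw [hz0.1, hz0.2]
      ring
    · change m₁ 0 * m₀ 2 + -(m₀ 0) * m₁ 2 = 0
      rw [hz1.1, hz1.2]
      ring)
  have h6 : m₁ = 0 := by
    funext i
    fin_cases i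
    · exact h5.1
    · exact hz0.1
    · exact hz1.1
  exact hm.ne_zero 1 h6

end Pool.Agent.J4H13.LA
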