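import Pool.Agent.J4H13.BC.Kummer

/-!
# Embeddings in rational function fields
-/

set_option autoImplicit false

open MvPolynomial

namespace Pool.Agent.J4H13.LA

open Pool.Agent.J4H13.BC

variable {K : Type} [Field K] [Algebra ℂ K]

open scoped IntermediateField.algebraAdjoinAdjoin in
lemma algInd_of_mem {t s x y : K} (hxy : AlgebraicIndependent ℂ ![x, y])
    (hx : x ∈ IntermediateField.adjoin ℂ {t, s}) (hy : y ∈ IntermediateField.adjoin ℂ {t, s}) :
    AlgebraicIndependent ℂ ![t, s] := by
  classical
  obtain ⟨S, hS⟩ : ∃ S : Set K, S = Set.range ![t, s] := ⟨_, rfl⟩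
  have hS' : S = {t, s} := by
    rw [hS, Matrix.range_cons, Matrix.range_cons, Matrix.range_empty, Set.union_empty]
    rfl
  rw [← hS'] at hx hy
  let B := Algebra.adjoin ℂ S
  let L := IntermediateField.adjoin ℂ S
  have h1 : (2 : Cardinal) ≤ Algebra.trdeg ℂ L := by
    have h2 : AlgebraicIndependent ℂ (fun i : Fin 2 => (⟨![x, y] i, by
        fin_cases i
        · exact hx
        · exact hy⟩ : L)) := by
      apply AlgebraicIndependent.of_comp (L.val)
      exact hxy
    have h3 := h2.cardinalMk_le_trdeg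
    simpa using h3
  have h2 : Algebra.IsAlgebraic B L := inferInstance
  have h3 : FaithfulSMul B L := by
    rw [faithfulSMul_iff_algebraMap_injective]
    intro a b hab
    apply Subtype.ext
    exact congrArg (fun z : L => (z : K)) hab
  have h8 : IsScalarTower ℂ B L := IsScalarTower.of_algebraMap_eq fun c => rfl
  have h4 := trdeg_add_eq ℂ B (A := L)
  have h5 : Algebra.trdeg B L = 0 := trdeg_eq_zero_iff.2 h2
  rw [h5, add_zero] at h4
  let x' : Fin 2 → B := fun i => ⟨![t, s] i, Algebra.subset_adjoin (by rw [hS]; exact ⟨i, rfl⟩)⟩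
  have h6 : Algebra.adjoin ℂ (Set.range x') = ⊤ := by
    have h7 : (Algebra.adjoin ℂ (Set.range x')).map B.val = B := by
      rw [AlgHom.map_adjoin, ← Set.range_comp]
      change Algebra.adjoin ℂ (Set.range ![t, s]) = _
      rw [← hS]
    rw [eq_top_iff]
    rintro ⟨b, hb⟩ -
    have hb' := hb
    change b ∈ B at hb'
    rw [← h7] at hb'
    obtain ⟨c, hc, hcb⟩ := hb'
    have : c = ⟨b, hb⟩ := Subtype.ext hcb
    rw [← this]
    exact hc
  have h7 : Algebra.IsAlgebraic (Algebra.adjoin ℂ (Set.range x')) B := by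
    rw [h6]
    refine ⟨fun b => ?_⟩
    have : b = algebraMap (⊤ : Subalgebra ℂ B) B ⟨b, trivial⟩ := rfl
    rw [this]
    exact isAlgebraic_algebraMap _
  have h9 : IsTranscendenceBasis ℂ x' := by
    apply Algebra.IsAlgebraic.isTranscendenceBasis_of_le_trdeg_of_finite ℂ x'
    rw [h4]
    simpa using h1
  have h10 := h9.1.map' (f := B.val) Subtype.val_injective
  exact h10

/-- A field generated by two elements with transcendence degree two is rational. -/
theorem embed_of_two {t s x y : K} (hxy : AlgebraicIndependent ℂ ![x, y])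
    (hx : x ∈ IntermediateField.adjoin ℂ {t, s}) (hy : y ∈ IntermediateField.adjoin ℂ {t, s}) :
    Nonempty (IntermediateField.adjoin ℂ {t, s} →ₐ[ℂ] FractionRing (PR 2)) := by
  have h1 := algInd_of_mem hxy hx hy
  have h2 : Set.range ![t, s] = {t, s} := by
    rw [Matrix.range_cons, Matrix.range_cons, Matrix.range_empty, Set.union_empty]
    rfl
  rw [← h2]
  exact ⟨h1.reprField⟩

end Pool.Agent.J4H13.LA
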