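import Pool.Agent.J4H13.LA.Comb

/-!
# Curves with prescribed multiplicities at the points of a line arrangement
-/

set_option autoImplicit false

open MvPolynomial

namespace Pool.Agent.J4H13.LA

/-- the polynomials in three variables -/
abbrev P3 : Type := MvPolynomial (Fin 3) ℂ

/-- the linear forms (or their coefficients) -/
abbrev V3 : Type := Fin 3 → ℂ

/-- the linear form with the given coefficients -/
noncomputable def lin (v : V3) : P3 := ∑ i, C (v i) * X i

lemma lin_homog (v : V3) : (lin v).IsHomogeneous 1 := by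
  unfold lin
  apply IsHomogeneous.sum
  intro i _
  have := (isHomogeneous_C (Fin 3) (v i)).mul (isHomogeneous_X ℂ i)
  simpa using this

lemma lin_add (v w : V3) : lin (v + w) = lin v + lin w := by
  unfold lin
  rw [← Finset.sum_add_distrib]
  refine Finset.sum_congr rfl fun i _ => ?_
  rw [Pi.add_apply, map_add, add_mul]

lemma lin_smul (c : ℂ) (v : V3) : lin (c • v) = C c * lin v := by
  unfold lin
  rw [Finset.mul_sum]
  refine Finset.sum_congr rfl fun i _ => ?_
  rw [Pi.smul_apply, smul_eq_mul, map_mul, mul_assoc]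

/-- the linear map from the coefficients to the linear forms -/
noncomputable def linL : V3 →ₗ[ℂ] P3 where
  toFun := lin
  map_add' := lin_add
  map_smul' := fun c v => by
    rw [lin_smul, RingHom.id_apply, ← smul_eq_C_mul]

lemma linL_apply (v : V3) : linL v = lin v := rfl

lemma coeff_lin (v : V3) (i : Fin 3) : coeff (Finsupp.single i 1) (lin v) = v i := by
  classical
  unfold lin
  rw [coeff_sum, Finset.sum_eq_single i]
  · rw [coeff_C_mul, coeff_X, if_pos rfl, mul_one]
  · intro j _ hj
    rw [coeff_C_mul, coeff_X, if_neg, mul_zero]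
    intro h
    exact hj ((Finsupp.single_left_inj one_ne_zero).1 h)
  · intro h
    exact absurd (Finset.mem_univ i) h

lemma lin_ne_zero {v : V3} (hv : v ≠ 0) : lin v ≠ 0 := by
  intro h
  apply hv
  funext i
  rw [← coeff_lin v i, h, coeff_zero, Pi.zero_apply]

lemma lin_single (i : Fin 3) : lin (Pi.single i 1) = X i := by
  classical
  unfold lin
  rw [Finset.sum_eq_single i]
  · rw [Pi.single_eq_same, C_1, one_mul]
  · intro j _ hj
    rw [Pi.single_eq_of_ne hj, C_0, zero_mul]
  · intro h
    exact absurd (Finset.mem_univ i) h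

/-- the ideal generated by the linear forms in `W` -/
noncomputable def IW (W : Submodule ℂ V3) : Ideal P3 := Ideal.span (lin '' (W : Set V3))

lemma lin_mem_IW {W : Submodule ℂ V3} {v : V3} (hv : v ∈ W) : lin v ∈ IW W :=
  Ideal.subset_span ⟨v, hv, rfl⟩

section basis

variable {W : Submodule ℂ V3} {a b : V3}

/-- coordinates adapted to a point -/
lemma exists_coord (hab : LinearIndependent ℂ ![a, b]) (ha : a ∈ W) (hb : b ∈ W) :
    ∃ (β γ : P3 →ₐ[ℂ] P3), (∀ P, β (γ P) = P) ∧ β (X 1) ∈ IW W ∧ β (X 2) ∈ IW W ∧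
      ∀ (P : P3) (e : ℕ), P.IsHomogeneous e → (γ P).IsHomogeneous e := by
  classical
  obtain ⟨v, hv⟩ := exists_linearIndependent_cons_of_lt_finrank (R := ℂ) (M := V3) hab (by
    simp)
  have hv' : LinearIndependent ℂ ![v, a, b] := by
    have h1 : (Fin.cons v ![a, b] : Fin 3 → V3) = ![v, a, b] := rfl
    rw [← h1]
    exact hv
  let B : Module.Basis (Fin 3) ℂ V3 := basisOfLinearIndependentOfCardEqFinrank hv' (by simp)
  have hB : ∀ i, B i = ![v, a, b] i := by
    intro i
    exact congrFun (coe_basisOfLinearIndependentOfCardEqFinrank hv' _) i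
  let β : P3 →ₐ[ℂ] P3 := aeval (fun j => lin (B j))
  let γ : P3 →ₐ[ℂ] P3 := aeval (fun i => lin (fun j => B.repr (Pi.single i 1) j))
  have hβlin : ∀ u : V3, β (lin u) = ∑ j, C (u j) * lin (B j) := by
    intro u
    unfold lin
    rw [map_sum]
    refine Finset.sum_congr rfl fun j _ => ?_
    rw [map_mul]
    congr 1
    · exact β.commutes (u j)
    · exact aeval_X _ j
  refine ⟨β, γ, ?_, ?_, ?_, ?_⟩
  · intro P
    have h1 : β.comp γ = AlgHom.id ℂ P3 := by
      apply MvPolynomial.algHom_ext
      intro i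
      change β (γ (X i)) = X i
      have h2 : γ (X i) = lin (fun j => B.repr (Pi.single i 1) j) := aeval_X _ i
      rw [h2, hβlin]
      have h3 : ∑ j, C (B.repr (Pi.single i 1) j) * lin (B j) =
          linL (∑ j, B.repr (Pi.single i 1) j • B j) := by
        rw [map_sum]
        refine Finset.sum_congr rfl fun j _ => ?_
        rw [linL_apply, lin_smul]
      rw [h3, B.sum_repr, linL_apply, lin_single]
    rw [← AlgHom.comp_apply, h1]
    rfl
  · have h1 : β (X 1) = lin (B 1) := aeval_X _ 1
    rw [h1, hB]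
    exact lin_mem_IW ha
  · have h1 : β (X 2) = lin (B 2) := aeval_X _ 2
    rw [h1, hB]
    exact lin_mem_IW hb
  · intro P e hP
    have := hP.aeval (fun i => lin (fun j => B.repr (Pi.single i 1) j)) (fun i => lin_homog _)
    rwa [one_mul] at this

/-- the pairs `(a, b)` with `a + b < m` -/
def tri (m : ℕ) : Finset ((_ : ℕ) × (ℕ × ℕ)) :=
  (Finset.range m).sigma (fun k => Finset.HasAntidiagonal.antidiagonal k)

lemma card_tri (m : ℕ) : (tri m).card = (m + 1).choose 2 := by
  unfold tri
  rw [Finset.card_sigma]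
  simp only [Finset.Nat.card_antidiagonal]
  induction m with
  | zero => rfl
  | succ m ih =>
    rw [Finset.sum_range_succ, ih, Nat.choose_succ_succ' (m + 1) 1, Nat.choose_one_right]
    ring

/-- the exponents -/
noncomputable def expo (e a b : ℕ) : Fin 3 →₀ ℕ :=
  Finsupp.single 0 (e - a - b) + Finsupp.single 1 a + Finsupp.single 2 b

lemma expo_zero (e a b : ℕ) : expo e a b 0 = e - a - b := by
  simp [expo]

lemma expo_one (e a b : ℕ) : expo e a b 1 = a := by
  simp [expo]

lemma expo_two (e a b : ℕ) : expo e a b 2 = b := by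
  simp [expo]

lemma eq_expo {s : Fin 3 →₀ ℕ} {e : ℕ} (hs : s.degree = e) : s = expo e (s 1) (s 2) := by
  ext i
  have h1 : s 0 + s 1 + s 2 = e := by
    rw [← hs, Finsupp.degree_eq_sum, Fin.sum_univ_three]
  fin_cases i
  · change s 0 = expo e (s 1) (s 2) 0
    rw [expo_zero]
    omega
  · change s 1 = expo e (s 1) (s 2) 1
    rw [expo_one]
  · change s 2 = expo e (s 1) (s 2) 2
    rw [expo_two]

/-- **Conditions at a point.** -/
lemma mem_pow_of_coeff {m e : ℕ} {β γ : P3 →ₐ[ℂ] P3} (hβγ : ∀ P, β (γ P) = P)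
    (h1 : β (X 1) ∈ IW W) (h2 : β (X 2) ∈ IW W)
    (hγ : ∀ (P : P3) (e : ℕ), P.IsHomogeneous e → (γ P).IsHomogeneous e) {P : P3}
    (hP : P.IsHomogeneous e)
    (hc : ∀ x ∈ tri m, coeff (expo e x.2.1 x.2.2) (γ P) = 0) : P ∈ IW W ^ m := by
  classical
  rw [← hβγ P, (γ P).as_sum, map_sum]
  apply Ideal.sum_mem
  intro s hs
  have hs0 : coeff s (γ P) ≠ 0 := mem_support_iff.1 hs
  have hdeg : s.degree = e := by
    have := hγ P e hP hs0
    rw [← this]
    exact DFunLike.congr_fun Finsupp.degree_eq_weight_one s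
  have hm : m ≤ s 1 + s 2 := by
    by_contra hcon
    push Not at hcon
    apply hs0
    rw [eq_expo hdeg]
    refine hc ⟨s 1 + s 2, (s 1, s 2)⟩ ?_
    unfold tri
    rw [Finset.mem_sigma, Finset.mem_range, Finset.HasAntidiagonal.mem_antidiagonal]
    exact ⟨hcon, rfl⟩
  rw [MvPolynomial.monomial_eq, map_mul]
  apply Ideal.mul_mem_left
  rw [Finsupp.prod_fintype _ _ (fun i => pow_zero _), Fin.prod_univ_three, map_mul, map_mul,
    map_pow, map_pow, map_pow, mul_assoc]
  apply Ideal.mul_mem_left
  apply Ideal.pow_le_pow_right hm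
  rw [pow_add]
  exact Ideal.mul_mem_mul (Ideal.pow_mem_pow h1 _) (Ideal.pow_mem_pow h2 _)

end basis

end Pool.Agent.J4H13.LA
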