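import Pool.Agent.J4H13.LA.Key

/-!
# Curves with prescribed multiplicities at the points of a line arrangement: the theorem
-/

set_option autoImplicit false

open MvPolynomial

namespace Pool.Agent.J4H13.LA

section blocks

variable {n : ℕ} (l : Fin n → V3)

open scoped Classical in
/-- the lines through a point -/
noncomputable def thr (W : Submodule ℂ V3) : Finset (Fin n) :=
  Finset.univ.filter fun k => l k ∈ W

lemma mem_thr {W : Submodule ℂ V3} {k : Fin n} : k ∈ thr l W ↔ l k ∈ W := by
  classical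
  unfold thr
  rw [Finset.mem_filter]
  exact ⟨fun h => h.2, fun h => ⟨Finset.mem_univ k, h⟩⟩

/-- the intersection point of two lines -/
noncomputable def pt (i j : Fin n) : Submodule ℂ V3 := Submodule.span ℂ {l i, l j}

variable {l}

lemma mem_pt_left (i j : Fin n) : l i ∈ pt l i j := Submodule.subset_span (by simp)

lemma mem_pt_right (i j : Fin n) : l j ∈ pt l i j := Submodule.subset_span (by simp)

lemma finrank_pt {i j : Fin n} (h : LinearIndependent ℂ ![l i, l j]) :
    Module.finrank ℂ (pt l i j) = 2 := by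
  have h1 := finrank_span_eq_card h
  have h2 : Set.range ![l i, l j] = {l i, l j} := by
    rw [Matrix.range_cons, Matrix.range_cons, Matrix.range_empty, Set.union_empty]
    rfl
  rw [h2, Fintype.card_fin] at h1
  exact h1

/-- two lines determine the point -/
lemma eq_pt {W : Submodule ℂ V3} (hW : Module.finrank ℂ W ≤ 2) {i j : Fin n}
    (h : LinearIndependent ℂ ![l i, l j]) (hi : l i ∈ W) (hj : l j ∈ W) : W = pt l i j := by
  symm
  apply Submodule.eq_of_le_of_finrank_le
  · unfold pt
    rw [Submodule.span_le]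
    intro x hx
    rcases hx with rfl | hx
    · exact hi
    · rw [Set.mem_singleton_iff] at hx
      rw [hx]
      exact hj
  · rw [finrank_pt h]
    exact hW

variable (l) in
open scoped Classical in
/-- the points -/
noncomputable def pts : Finset (Finset (Fin n)) :=
  (Finset.univ.filter fun x : Fin n × Fin n => x.1 ≠ x.2).image fun x => thr l (pt l x.1 x.2)

lemma mem_pts {F : Finset (Fin n)} : F ∈ pts l ↔ ∃ i j, i ≠ j ∧ F = thr l (pt l i j) := by
  classical
  unfold pts
  rw [Finset.mem_image]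
  constructor
  · rintro ⟨⟨i, j⟩, hx, rfl⟩
    rw [Finset.mem_filter] at hx
    exact ⟨i, j, hx.2, rfl⟩
  · rintro ⟨i, j, hij, rfl⟩
    exact ⟨(i, j), Finset.mem_filter.2 ⟨Finset.mem_univ _, hij⟩, rfl⟩

lemma isLS (hl : ∀ i j, i ≠ j → LinearIndependent ℂ ![l i, l j]) : IsLS (pts l) := by
  classical
  refine ⟨?_, ?_, ?_⟩
  · intro F hF
    obtain ⟨i, j, hij, rfl⟩ := mem_pts.1 hF
    have h1 : ({i, j} : Finset (Fin n)) ⊆ thr l (pt l i j) := by
      intro k hk
      rw [mem_thr]
      rw [Finset.mem_insert, Finset.mem_singleton] at hk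
      rcases hk with rfl | rfl
      · exact mem_pt_left _ _
      · exact mem_pt_right _ _
    have h2 := Finset.card_le_card h1
    rwa [Finset.card_pair hij] at h2
  · intro i j hij
    exact ⟨_, mem_pts.2 ⟨i, j, hij, rfl⟩, (mem_thr l).2 (mem_pt_left _ _),
      (mem_thr l).2 (mem_pt_right _ _)⟩
  · intro F hF F' hF' i j hij hi hj hi' hj'
    obtain ⟨a, b, hab, rfl⟩ := mem_pts.1 hF
    obtain ⟨a', b', hab', rfl⟩ := mem_pts.1 hF'
    rw [mem_thr] at hi hj hi' hj'
    rw [eq_pt (finrank_pt (hl a b hab)).le (hl i j hij) hi hj,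
      eq_pt (finrank_pt (hl a' b' hab')).le (hl i j hij) hi' hj']

end blocks

/-- the forms with given coefficients -/
noncomputable def form (e : ℕ) (c : tri (e + 1) → ℂ) : P3 :=
  ∑ x, C (c x) * monomial (expo e x.1.2.1 x.1.2.2) 1

lemma form_homog (e : ℕ) (c : tri (e + 1) → ℂ) : (form e c).IsHomogeneous e := by
  classical
  unfold form
  apply IsHomogeneous.sum
  rintro ⟨⟨k, a, b⟩, hx0⟩ _
  have hx := hx0
  unfold tri at hx
  rw [Finset.mem_sigma, Finset.mem_range, Finset.HasAntidiagonal.mem_antidiagonal] at hx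
  have h1 : (monomial (expo e a b) (1 : ℂ) : P3).IsHomogeneous e := by
    apply isHomogeneous_monomial
    rw [Finsupp.degree_eq_sum, Fin.sum_univ_three, expo_zero, expo_one, expo_two]
    have h2 : k < e + 1 := hx.1
    have h3 : a + b = k := hx.2
    omega
  have := (isHomogeneous_C (Fin 3) (c ⟨⟨k, a, b⟩, hx0⟩)).mul h1
  rwa [zero_add] at this

lemma expo_injective {e a b a' b' : ℕ} (h : expo e a b = expo e a' b') : a = a' ∧ b = b' := by
  constructor
  · rw [← expo_one e a b, h, expo_one]
  · rw [← expo_two e a b, h, expo_two]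

lemma coeff_form (e : ℕ) (c : tri (e + 1) → ℂ) (x : tri (e + 1)) :
    coeff (expo e x.1.2.1 x.1.2.2) (form e c) = c x := by
  classical
  unfold form
  rw [coeff_sum, Finset.sum_eq_single x]
  · rw [coeff_C_mul, coeff_monomial, if_pos rfl, mul_one]
  · intro y _ hyx
    rw [coeff_C_mul, coeff_monomial, if_neg, mul_zero]
    intro h
    apply hyx
    obtain ⟨h1, h2⟩ := expo_injective h
    obtain ⟨⟨k, a, b⟩, hx⟩ := x
    obtain ⟨⟨k', a', b'⟩, hy⟩ := y
    have hx' := hx
    have hy' := hy
    unfold tri at hx' hy'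
    rw [Finset.mem_sigma, Finset.mem_range, Finset.HasAntidiagonal.mem_antidiagonal] at hx' hy'
    have h3 : a + b = k := hx'.2
    have h4 : a' + b' = k' := hy'.2
    have h5 : a' = a := h1
    have h6 : b' = b := h2
    subst h5 h6 h3 h4
    rfl
  · intro h
    exact absurd (Finset.mem_univ x) h

/-- the coefficients of a form after a change of coordinates -/
noncomputable def condL (e : ℕ) (γ : P3 →ₐ[ℂ] P3) (m : ℕ) :
    (tri (e + 1) → ℂ) →ₗ[ℂ] (tri m → ℂ) where
  toFun c := fun x => coeff (expo e x.1.2.1 x.1.2.2) (γ (form e c))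
  map_add' c c' := by
    funext x
    have h1 : form e (c + c') = form e c + form e c' := by
      unfold form
      rw [← Finset.sum_add_distrib]
      refine Finset.sum_congr rfl fun y _ => ?_
      rw [Pi.add_apply, map_add, add_mul]
    rw [h1, map_add, coeff_add]
    rfl
  map_smul' a c := by
    funext x
    have h1 : form e (a • c) = a • form e c := by
      unfold form
      rw [Finset.smul_sum]
      refine Finset.sum_congr rfl fun y _ => ?_
      rw [Pi.smul_apply, smul_eq_mul, map_mul, smul_eq_C_mul, mul_assoc]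
    rw [h1, map_smul, coeff_smul]
    rfl

/-- **Key lemma.** If at most `2 d - 3` of the `2 d` lines pass through each point, there is a
nonzero form of degree `d - 3` with multiplicity at least `[r / 2] - 1` at each point, where `r` is
the number of the lines through the point. -/
theorem key {d : ℕ} (hd : 3 ≤ d) {l : Fin (2 * d) → V3}
    (hl : ∀ i j, i ≠ j → LinearIndependent ℂ ![l i, l j])
    (hmult : ∀ W : Submodule ℂ V3, Module.finrank ℂ W ≤ 2 → (thr l W).card ≤ 2 * d - 3) :
    ∃ P : P3, P ≠ 0 ∧ P.IsHomogeneous (d - 3) ∧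
      ∀ W : Submodule ℂ V3, Module.finrank ℂ W ≤ 2 → P ∈ IW W ^ ((thr l W).card / 2 - 1) := by
  classical
  have hLS := isLS hl
  have hl0 : ∀ i : Fin (2 * d), l i ≠ 0 := by
    intro i
    obtain ⟨j, hj⟩ : ∃ j : Fin (2 * d), i ≠ j := by
      by_cases h0 : i = ⟨0, by omega⟩
      · refine ⟨⟨1, by omega⟩, ?_⟩
        rw [h0]
        intro h
        simp at h
      · exact ⟨_, h0⟩
    exact (hl i j hj).ne_zero 0
  have htwo : ∀ W : Submodule ℂ V3, Module.finrank ℂ W ≤ 2 → 2 ≤ (thr l W).card →
      thr l W ∈ pts l ∧ ∃ i j, i ≠ j ∧ W = pt l i j := by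
    intro W hW h2
    obtain ⟨i, hi, j, hj, hij⟩ := Finset.one_lt_card.1 (by omega : 1 < (thr l W).card)
    rw [mem_thr] at hi hj
    have h3 := eq_pt hW (hl i j hij) hi hj
    exact ⟨mem_pts.2 ⟨i, j, hij, by rw [← h3]⟩, i, j, hij, h3⟩
  by_cases hno : ∀ i, ∃ F ∈ pts l, i ∉ F ∧ 4 ≤ F.card
  · -- counting
    have hcount := hLS.count hd hno
    -- the points as subspaces
    have hF : ∀ F : pts l, ∃ (W : Submodule ℂ V3) (β γ : P3 →ₐ[ℂ] P3), F.1 = thr l W ∧
        (∀ W' : Submodule ℂ V3, Module.finrank ℂ W' ≤ 2 → thr l W' = F.1 → W' = W) ∧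
        (∀ P, β (γ P) = P) ∧ β (X 1) ∈ IW W ∧ β (X 2) ∈ IW W ∧
        ∀ (P : P3) (e : ℕ), P.IsHomogeneous e → (γ P).IsHomogeneous e := by
      rintro ⟨F, hF⟩
      obtain ⟨i, j, hij, rfl⟩ := mem_pts.1 hF
      obtain ⟨β, γ, h1, h2, h3, h4⟩ := exists_coord (hl i j hij) (mem_pt_left (l := l) i j)
        (mem_pt_right (l := l) i j)
      refine ⟨pt l i j, β, γ, rfl, ?_, h1, h2, h3, h4⟩
      intro W' hW' hth
      have hi : i ∈ thr l W' := by
        rw [hth, mem_thr]
        exact mem_pt_left _ _
      have hj : j ∈ thr l W' := by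
        rw [hth, mem_thr]
        exact mem_pt_right _ _
      rw [mem_thr] at hi hj
      exact eq_pt hW' (hl i j hij) hi hj
    choose W β γ hFW hWu hβγ hβ1 hβ2 hγ using hF
    let Λ : (tri (d - 3 + 1) → ℂ) →ₗ[ℂ] ((F : pts l) → tri (F.1.card / 2 - 1) → ℂ) :=
      LinearMap.pi fun F => condL (d - 3) (γ F) (F.1.card / 2 - 1)
    have hker : LinearMap.ker Λ ≠ ⊥ := by
      apply LinearMap.ker_ne_bot_of_finrank_lt
      rw [Module.finrank_pi_fintype, Module.finrank_fintype_fun_eq_card, Fintype.card_coe, card_tri]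
      simp only [Module.finrank_fintype_fun_eq_card, Fintype.card_coe, card_tri]
      have h1 : ∑ F : pts l, (F.1.card / 2 - 1 + 1).choose 2 =
          ∑ F ∈ pts l, (F.card / 2).choose 2 := by
        rw [← Finset.sum_coe_sort (pts l) (fun F => (F.card / 2).choose 2)]
        refine Finset.sum_congr rfl fun F _ => ?_
        have := hLS.1 F.1 F.2
        congr 1
        omega
      rw [h1]
      have h2 : d - 3 + 1 + 1 = d - 1 := by omega
      rw [h2]
      exact hcount
    obtain ⟨c, hc, hc0⟩ := (Submodule.ne_bot_iff _).1 hker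
    refine ⟨form (d - 3) c, ?_, form_homog _ _, ?_⟩
    · intro h
      apply hc0
      funext x
      rw [← coeff_form (d - 3) c x, h, coeff_zero, Pi.zero_apply]
    · intro W' hW'
      by_cases h4 : 4 ≤ (thr l W').card
      · obtain ⟨hmem, -⟩ := htwo W' hW' (by omega)
        obtain ⟨F, hFdef⟩ : ∃ F : pts l, F = ⟨thr l W', hmem⟩ := ⟨_, rfl⟩
        have hFc : F.1 = thr l W' := by rw [hFdef]
        have hWW : W' = W F := hWu F W' hW' hFc.symm
        rw [← hFc]
        rw [hWW]
        refine mem_pow_of_coeff (hβγ F) (hβ1 F) (hβ2 F) (hγ F) (form_homog _ _) ?_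
        intro x hx
        have h5 : Λ c F = 0 := by
          rw [LinearMap.mem_ker.1 hc]
          rfl
        exact congrFun h5 ⟨x, hx⟩
      · have h5 : (thr l W').card / 2 - 1 = 0 := by omega
        rw [h5, pow_zero, Ideal.one_eq_top]
        trivial
  · -- all the points off a line have small multiplicity
    push Not at hno
    obtain ⟨i, hi⟩ := hno
    refine ⟨lin (l i) ^ (d - 3), pow_ne_zero _ (lin_ne_zero (hl0 i)), ?_, ?_⟩
    · have := (lin_homog (l i)).pow (d - 3)
      rwa [one_mul] at this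
    · intro W hW
      by_cases h4 : 4 ≤ (thr l W).card
      · obtain ⟨hmem, -⟩ := htwo W hW (by omega)
        have hiW : l i ∈ W := by
          by_contra hcon
          have := hi _ hmem (fun h => hcon ((mem_thr l).1 h))
          omega
        have h5 := hmult W hW
        have h6 : (thr l W).card / 2 - 1 ≤ d - 3 := by omega
        exact Ideal.pow_le_pow_right h6 (Ideal.pow_mem_pow (lin_mem_IW hiW) _)
      · have h5 : (thr l W).card / 2 - 1 = 0 := by omega
        rw [h5, pow_zero, Ideal.one_eq_top]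
        trivial

end Pool.Agent.J4H13.LA
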