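import Pool.Agent.J4H13.LA.Cons

/-!
# Zero-cycles on the covers of the plane branched along lines
-/

set_option autoImplicit false

open FF

namespace Pool.Agent.J4H13.LA

open Pool.Agent.J4H13.BC Pool.Agent.W602.GT Pool.Agent.W603.LV Pool.Agent.Helper397.HK

variable {K : Type} [Field K] [Algebra ℂ K]

lemma ev_mem {x y : K} {L : IntermediateField ℂ K} (hx : x ∈ L) (hy : y ∈ L) (v : V3) :
    ev (gp x y) v ∈ L := by
  rw [ev_gp]
  exact add_mem (add_mem (L.algebraMap_mem _) (mul_mem (L.algebraMap_mem _) hx))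
    (mul_mem (L.algebraMap_mem _) hy)

/-- Removing squares. -/
lemma reduce {x y : K} (hxy : AlgebraicIndependent ℂ ![x, y]) {ι : Type} [DecidableEq ι]
    {l : ι → V3} (hl0 : ∀ i, l i ≠ 0) (N : ℕ) : ∀ (T : Finset ι), T.card = 2 * N →
    ∀ w : K, w ^ 2 = ∏ i ∈ T, ev (gp x y) (l i) →
    ∃ (d : ℕ) (l' : Fin (2 * d) → V3), (∀ i j, i ≠ j → LinearIndependent ℂ ![l' i, l' j]) ∧
      ∃ g v : K, (∀ L : IntermediateField ℂ K, x ∈ L → y ∈ L → g ∈ L) ∧ w = g * v ∧
        v ^ 2 = ∏ i, ev (gp x y) (l' i) := by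
  classical
  induction N with
  | zero =>
    intro T hT w hw
    have hT0 : T = ∅ := Finset.card_eq_zero.1 (by omega)
    refine ⟨0, fun i => i.elim0, fun i => i.elim0, 1, w, fun L _ _ => one_mem L,
      (one_mul w).symm, ?_⟩
    rw [hw, hT0, Finset.prod_empty]
    rfl
  | succ N ih =>
    intro T hT w hw
    by_cases hpair : ∀ i ∈ T, ∀ j ∈ T, i ≠ j → LinearIndependent ℂ ![l i, l j]
    · have e : Fin (2 * (N + 1)) ≃ T := (Finset.equivFinOfCardEq hT).symm
      refine ⟨N + 1, fun i => l (e i), ?_, 1, w, fun L _ _ => one_mem L, (one_mul w).symm, ?_⟩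
      · intro i j hij
        exact hpair _ (e i).2 _ (e j).2 (fun h => hij (e.injective (Subtype.ext h)))
      · rw [hw, ← Finset.prod_coe_sort]
        exact (Equiv.prod_comp e (fun i : T => ev (gp x y) (l i))).symm
    · push Not at hpair
      obtain ⟨i, hi, j, hj, hij, hdep⟩ := hpair
      obtain ⟨c, hc0, hc⟩ : ∃ c : ℂ, c ≠ 0 ∧ l j = c • l i := by
        rw [LinearIndependent.pair_iff] at hdep
        push Not at hdep
        obtain ⟨s, t, hst, h6⟩ := hdep
        have ht : t ≠ 0 := by
          rintro rfl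
          rw [zero_smul, add_zero] at hst
          have hs : s = 0 := (smul_eq_zero.1 hst).resolve_right (hl0 i)
          exact h6 hs rfl
        have hs : s ≠ 0 := by
          rintro rfl
          rw [zero_smul, zero_add] at hst
          exact ht ((smul_eq_zero.1 hst).resolve_right (hl0 j))
        refine ⟨-(s / t), neg_ne_zero.2 (div_ne_zero hs ht), ?_⟩
        have h7 : l j = t⁻¹ • (t • l j) := by
          rw [smul_smul, inv_mul_cancel₀ ht, one_smul]
        rw [h7, eq_neg_of_add_eq_zero_right hst, smul_neg, smul_smul, neg_smul]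
        congr 2
        field_simp
      obtain ⟨r, hr⟩ := IsAlgClosed.exists_pow_nat_eq c (n := 2) two_pos
      have hr0 : r ≠ 0 := by
        rintro rfl
        apply hc0
        rw [← hr]
        ring
      have hT1 : ((T.erase i).erase j).card = 2 * N := by
        rw [Finset.card_erase_of_mem (Finset.mem_erase.2 ⟨Ne.symm hij, hj⟩),
          Finset.card_erase_of_mem hi, hT]
        omega
      have hei : ev (gp x y) (l i) ≠ 0 := ev_gp_ne_zero hxy (hl0 i)
      have hrK : algebraMap ℂ K r ≠ 0 := (map_ne_zero _).2 hr0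
      have hprod : ∏ k ∈ T, ev (gp x y) (l k) = (algebraMap ℂ K r * ev (gp x y) (l i)) ^ 2 *
          ∏ k ∈ (T.erase i).erase j, ev (gp x y) (l k) := by
        rw [← Finset.mul_prod_erase T _ hi, ← Finset.mul_prod_erase (T.erase i) _
          (Finset.mem_erase.2 ⟨Ne.symm hij, hj⟩), hc, ev_smul, ← hr, map_pow]
        ring
      obtain ⟨d, l', hl', g, v, hg, hw', hv⟩ := ih ((T.erase i).erase j) hT1
        (w / (algebraMap ℂ K r * ev (gp x y) (l i))) (by
          rw [div_pow, hw, hprod]
          field_simp)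
      refine ⟨d, l', hl', algebraMap ℂ K r * ev (gp x y) (l i) * g, v, ?_, ?_, hv⟩
      · intro L hx hy
        exact mul_mem (mul_mem (L.algebraMap_mem r) (ev_mem hx hy _)) (hg L hx hy)
      · rw [mul_assoc, ← hw']
        field_simp

lemma li_three {m₀ m₁ m₂ : V3} (h : LinearIndependent ℂ ![m₀, m₁])
    (hm : m₂ ∉ Submodule.span ℂ {m₀, m₁}) : LinearIndependent ℂ ![m₀, m₁, m₂] := by
  have h1 : LinearIndependent ℂ (Fin.cons m₂ ![m₀, m₁] : Fin 3 → V3) := by
    rw [linearIndependent_finCons]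
    refine ⟨h, ?_⟩
    rw [Matrix.range_cons, Matrix.range_cons, Matrix.range_empty, Set.union_empty]
    exact hm
  have h2 := h1.comp ![1, 2, 0] (by decide)
  convert h2 using 1
  ext i
  fin_cases i <;> rfl

/-- **Double planes branched along lines.** -/
theorem good_lines (hpg : PgZero K) (hq : QZero K) {x y : K}
    (hxy : AlgebraicIndependent ℂ ![x, y]) {d : ℕ} {l : Fin (2 * d) → V3}
    (hl : ∀ i j, i ≠ j → LinearIndependent ℂ ![l i, l j]) {v : K}
    (hv : v ^ 2 = ∏ i, ev (gp x y) (l i)) : Good x y v := by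
  classical
  rcases Nat.eq_zero_or_pos d with rfl | hd
  · have hx : x ∈ IntermediateField.adjoin ℂ {x, y} :=
      IntermediateField.subset_adjoin _ _ (by simp)
    have hy : y ∈ IntermediateField.adjoin ℂ {x, y} :=
      IntermediateField.subset_adjoin _ _ (by simp)
    refine ⟨_, hx, hy, ?_, 2, embed_of_two hxy hx hy⟩
    have hv1 : v ^ 2 = 1 := hv
    have hv2 : (v - 1) * (v + 1) = 0 := by linear_combination hv1
    rcases mul_eq_zero.1 hv2 with h | h
    · rw [sub_eq_zero.1 h]
      exact one_mem _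
    · rw [eq_neg_of_add_eq_zero_left h]
      exact neg_mem (one_mem _)
  have hl0 : ∀ i, l i ≠ 0 := by
    intro i
    obtain ⟨j, hj⟩ : ∃ j : Fin (2 * d), i ≠ j := by
      by_cases h0 : i = ⟨0, by omega⟩
      · refine ⟨⟨1, by omega⟩, ?_⟩
        rw [h0]
        intro h
        simp at h
      · exact ⟨_, h0⟩
    exact (hl i j hj).ne_zero 0
  have hv0 : v ≠ 0 := by
    rintro rfl
    have h1 : (∏ i, ev (gp x y) (l i)) = 0 := by
      rw [← hv]
      ring
    obtain ⟨i, -, hi⟩ := Finset.prod_eq_zero_iff.1 h1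
    exact ev_gp_ne_zero hxy (hl0 i) hi
  rcases Nat.lt_or_ge d 2 with hd2 | hd2
  · -- two lines
    obtain rfl : d = 1 := by omega
    have h01 : LinearIndependent ℂ ![l 0, l 1] := hl 0 1 (by decide)
    obtain ⟨m, hm⟩ := exists_linearIndependent_cons_of_lt_finrank (R := ℂ) (M := V3) h01 (by simp)
    have hm' : LinearIndependent ℂ ![m, l 0, l 1] := hm
    have hm3 : LinearIndependent ℂ ![l 0, m, l 1] := by
      have h2 := hm'.comp ![1, 0, 2] (by decide)
      convert h2 using 1
      ext i
      fin_cases i <;> rfl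
    refine good_one hxy (m := ![l 0, m, l 1]) hm3 (d := 1) (l := l) hl0 {0} ?_ ?_ ?_
    · intro i hi
      rw [Finset.mem_singleton] at hi
      rw [hi]
      exact Submodule.subset_span (by simp)
    · rw [Finset.card_singleton]
    · rw [hv, Finset.prod_singleton]
      exact Fin.prod_univ_two _
  -- a point of high multiplicity
  obtain ⟨W, hW, hcard⟩ : ∃ W : Submodule ℂ V3, Module.finrank ℂ W ≤ 2 ∧
      2 * d - 2 ≤ (thr l W).card := by
    rcases Nat.lt_or_ge d 3 with hd3 | hd3
    · obtain rfl : d = 2 := by omega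
      have h01 : LinearIndependent ℂ ![l 0, l 1] := hl 0 1 (by decide)
      refine ⟨pt l 0 1, (finrank_pt h01).le, ?_⟩
      have h1 : ({0, 1} : Finset (Fin (2 * 2))) ⊆ thr l (pt l 0 1) := by
        intro k hk
        rw [mem_thr]
        rw [Finset.mem_insert, Finset.mem_singleton] at hk
        rcases hk with rfl | rfl
        · exact mem_pt_left _ _
        · exact mem_pt_right _ _
      have h2 := Finset.card_le_card h1
      rw [Finset.card_pair (by decide)] at h2
      exact h2
    · exact exists_point hpg hxy hd3 hl hv0 hv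
  obtain ⟨i, hi, j, hj, hij⟩ := Finset.one_lt_card.1 (by omega : 1 < (thr l W).card)
  have hWpt : W = Submodule.span ℂ {l i, l j} :=
    eq_pt hW (hl i j hij) ((mem_thr l).1 hi) ((mem_thr l).1 hj)
  have hTspan : ∀ k ∈ thr l W, l k ∈ Submodule.span ℂ {l i, l j} := by
    intro k hk
    rw [← hWpt]
    exact (mem_thr l).1 hk
  have hnotspan : ∀ k, k ∉ thr l W → l k ∉ Submodule.span ℂ {l i, l j} := by
    intro k hk h
    rw [← hWpt] at h
    exact hk ((mem_thr l).2 h)
  have hcompl : ((thr l W)ᶜ).card + (thr l W).card = 2 * d := by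
    rw [Finset.card_compl, Fintype.card_fin]
    have := Finset.card_le_univ (thr l W)
    rw [Fintype.card_fin] at this
    omega
  have hprod : ∏ k, ev (gp x y) (l k) = (∏ k ∈ thr l W, ev (gp x y) (l k)) *
      ∏ k ∈ (thr l W)ᶜ, ev (gp x y) (l k) := (Finset.prod_mul_prod_compl _ _).symm
  rcases (by omega : ((thr l W)ᶜ).card = 0 ∨ ((thr l W)ᶜ).card = 1 ∨ ((thr l W)ᶜ).card = 2) with
    h0 | h1 | h2
  · exfalso
    have hall : ∀ k, l k ∈ Submodule.span ℂ {l i, l j} := by
      intro k
      apply hTspan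
      by_contra hk
      have := Finset.card_eq_zero.1 h0
      rw [Finset.compl_eq_empty_iff] at this
      rw [this] at hk
      exact hk (Finset.mem_univ k)
    exact no_pencil hq hxy hd2 hl hv0 hv (hl i j hij) hall
  · obtain ⟨k, hk⟩ := Finset.card_eq_one.1 h1
    have hkn : k ∉ thr l W := by
      rw [← Finset.mem_compl, hk]
      exact Finset.mem_singleton_self k
    refine good_one hxy (m := ![l i, l j, l k]) (li_three (hl i j hij) (hnotspan k hkn)) (d := d)
      (l := l) hl0 (thr l W) hTspan (by omega) ?_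
    rw [hv, hprod, hk, Finset.prod_singleton]
    rfl
  · obtain ⟨k, k', hkk, hk⟩ := Finset.card_eq_two.1 h2
    have hkn : k ∉ thr l W := by
      rw [← Finset.mem_compl, hk]
      simp
    refine good_two hxy (m := ![l i, l j, l k]) (li_three (hl i j hij) (hnotspan k hkn)) (d := d)
      (l := l) hl0 (thr l W) hTspan (by omega) (m' := l k') (hl k' k (Ne.symm hkk)) ?_
    rw [hv, hprod, hk, Finset.prod_pair hkk]
    rfl

/-- Square roots of arbitrary products of linear forms. -/
theorem good_sqrt (hpg : PgZero K) (hq : QZero K) {x y : K}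
    (hxy : AlgebraicIndependent ℂ ![x, y]) {ι : Type} [DecidableEq ι] {l : ι → V3}
    (hl0 : ∀ i, l i ≠ 0) (T : Finset ι) {w : K} (hw : w ^ 2 = ∏ i ∈ T, ev (gp x y) (l i)) :
    Good x y w := by
  classical
  -- an even number of lines
  obtain ⟨ι', _, l₁, hl₁, T₁, N, hN, hT₁⟩ : ∃ (ι' : Type) (_ : DecidableEq ι') (l₁ : ι' → V3)
      (_ : ∀ i, l₁ i ≠ 0) (T₁ : Finset ι') (N : ℕ), T₁.card = 2 * N ∧
      ∏ i ∈ T₁, ev (gp x y) (l₁ i) = ∏ i ∈ T, ev (gp x y) (l i) := by
    obtain ⟨N, hN | hN⟩ := Nat.even_or_odd' T.card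
    · exact ⟨ι, inferInstance, l, hl0, T, N, hN, rfl⟩
    · refine ⟨Option ι, inferInstance, fun i => i.elim (Pi.single 0 1) l, ?_,
        Finset.insertNone T, N + 1, ?_, ?_⟩
      · intro i
        cases i with
        | none =>
          intro h
          have := congrFun h 0
          simp at this
        | some i => exact hl0 i
      · rw [Finset.card_insertNone, hN]
        ring
      · rw [Finset.prod_insertNone]
        change ev (gp x y) (Pi.single 0 1) * _ = _
        rw [ev_single]
        change 1 * _ = _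
        rw [one_mul]
        rfl
  obtain ⟨d, l', hl', g, v, hg, hwg, hv⟩ := reduce hxy hl₁ N T₁ hN w (by rw [hw, hT₁])
  obtain ⟨L, hx, hy, hvL, hL⟩ := good_lines hpg hq hxy hl' hv
  exact ⟨L, hx, hy, by rw [hwg]; exact mul_mem (hg L hx hy) hvL, hL⟩

/-- **Bloch's conjecture for the covers of the plane branched along lines.** -/
theorem bloch_lines (hpg : PgZero K) (hq : QZero K) {x y : K}
    (hxy : AlgebraicIndependent ℂ ![x, y]) {k : ℕ} {w : Fin k → K}
    (hw : ∀ i, ∃ (n : ℕ) (l : Fin n → V3), (∀ j, l j ≠ 0) ∧ w i ^ 2 = ∏ j, ev (gp x y) (l j))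
    (hgen : IntermediateField.adjoin ℂ ({x, y} ∪ Set.range w) = ⊤)
    {N : ℕ} (ξ : Fin (N + 1) → K) (hξ : ξ ≠ 0) : ∀ a b : (locus ξ hξ).Pts ℂ, cls a = cls b := by
  classical
  choose n l hl0 hw2 using hw
  obtain ⟨k₀, hk₀⟩ : ∃ k₀ : IntermediateField ℂ K, k₀ = IntermediateField.adjoin ℂ {x, y} :=
    ⟨_, rfl⟩
  have hxk : x ∈ k₀ := by
    rw [hk₀]
    exact IntermediateField.subset_adjoin _ _ (by simp)
  have hyk : y ∈ k₀ := by
    rw [hk₀]
    exact IntermediateField.subset_adjoin _ _ (by simp)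
  have hwk : ∀ i, w i ^ 2 ∈ k₀ := by
    intro i
    rw [hw2]
    exact _root_.prod_mem fun j _ => ev_mem hxk hyk _
  have hw0 : ∀ i, w i ≠ 0 := by
    intro i h
    have h1 : (∏ j, ev (gp x y) (l i j)) = 0 := by
      rw [← hw2, h]
      ring
    obtain ⟨j, -, hj⟩ := Finset.prod_eq_zero_iff.1 h1
    exact ev_gp_ne_zero hxy (hl0 i j) hj
  have hgen' : IntermediateField.adjoin k₀ (Set.range w) = ⊤ := by
    apply IntermediateField.restrictScalars_injective ℂ
    rw [IntermediateField.restrictScalars_top, eq_top_iff, ← hgen,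
      IntermediateField.adjoin_le_iff]
    rintro z (hz | hz)
    · change z ∈ IntermediateField.adjoin k₀ (Set.range w)
      have h1 : z ∈ k₀ := by
        rcases hz with rfl | hz
        · exact hxk
        · rw [Set.mem_singleton_iff] at hz
          rw [hz]
          exact hyk
      exact (IntermediateField.adjoin k₀ (Set.range w)).algebraMap_mem ⟨z, h1⟩
    · change z ∈ IntermediateField.adjoin k₀ (Set.range w)
      exact IntermediateField.subset_adjoin _ _ hz
  refine kummer hwk hw0 hgen' ?_ ξ hξ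
  intro S
  have hS : (∏ i ∈ S, w i) ^ 2 = ∏ p ∈ S.sigma (fun i => (Finset.univ : Finset (Fin (n i)))),
      ev (gp x y) (l p.1 p.2) := by
    rw [← Finset.prod_pow, Finset.prod_sigma]
    exact Finset.prod_congr rfl fun i _ => hw2 i
  obtain ⟨L, hx, hy, hwL, m, hL⟩ := good_sqrt hpg hq hxy
    (l := fun p : (i : Fin k) × Fin (n i) => l p.1 p.2) (fun p => hl0 p.1 p.2) _ hS
  refine ⟨L, ?_, hwL, m, hL⟩
  rw [hk₀, IntermediateField.adjoin_le_iff]
  rintro z (rfl | hz)
  · exact hx
  · rw [Set.mem_singleton_iff] at hz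
    rw [hz]
    exact hy

end Pool.Agent.J4H13.LA
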