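import Pool.Agent.J4H13.LA.Key2
import Pool.Agent.W602.GT.Defs
import Pool.Agent.W603.LV.Ord
import Pool.Agent.Helper26.RG.DualDer

/-!
# Orders of derivatives
-/

set_option autoImplicit false

open FF

namespace Pool.Agent.J4H13.LA

open Pool.Agent.W602.GT Pool.Agent.W603.LV

variable {K : Type} [Field K] [Algebra ℂ K]

/-- a uniformizer -/
lemma exists_unif (P : Place ℂ K) : ∃ π : K, π ≠ 0 ∧ P.ord π = 1 := P.surj

/-- logarithmic derivatives -/
lemma logd {P : Place ℂ K} {π : K} (hπ0 : π ≠ 0) (hπ : P.ord π = 1) {f : K}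
    (hf : f ≠ 0) : ∃ ε : K, ε ≠ 0 ∧ P.ord ε = 0 ∧ ∀ D : Derivation ℂ K K, DerReg P D →
      Ge P 0 (D ε / ε) ∧ D f / f = (P.ord f : K) * (D π / π) + D ε / ε := by
  obtain ⟨ε, hε⟩ : ∃ ε, ε = f * π ^ (-P.ord f) := ⟨_, rfl⟩
  have h1 : π ^ (-P.ord f) ≠ 0 := zpow_ne_zero _ hπ0
  have hε0 : ε ≠ 0 := hε ▸ mul_ne_zero hf h1
  have hεo : P.ord ε = 0 := by
    rw [hε, P.ord_mul hf h1, P.ord_zpow, hπ]
    ring
  refine ⟨ε, hε0, hεo, fun D hD => ⟨?_, ?_⟩⟩
  · have h2 : P.Reg (D ε) := hD ε (Or.inr hεo.ge)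
    have h3 : P.Reg ε⁻¹ := Or.inr (by rw [P.ord_inv, hεo, neg_zero])
    rw [div_eq_mul_inv]
    exact P.reg_mul h2 h3
  · have hfπ : f = ε * π ^ (P.ord f) := by
      rw [hε, mul_assoc, ← zpow_add₀ hπ0, neg_add_cancel, zpow_zero, mul_one]
    have h4 : D f = D ε * π ^ (P.ord f) + ε * ((P.ord f : K) * π ^ (P.ord f - 1) * D π) := by
      conv_lhs => rw [hfπ]
      rw [D.leibniz, D.leibniz_zpow]
      simp only [smul_eq_mul, zsmul_eq_mul]
      ring
    rw [h4]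
    have h5 : π ^ (P.ord f) ≠ 0 := zpow_ne_zero _ hπ0
    have h6 : π ^ (P.ord f - 1) = π ^ (P.ord f) / π := by
      rw [zpow_sub_one₀ hπ0, div_eq_mul_inv]
    rw [h6]
    have h7 : f = ε * π ^ (P.ord f) := hfπ
    have h8 : (D ε * π ^ P.ord f + ε * ((P.ord f : K) * (π ^ P.ord f / π) * D π)) / f =
        (D ε * π ^ P.ord f + ε * ((P.ord f : K) * (π ^ P.ord f / π) * D π)) /
          (ε * π ^ (P.ord f)) := by
      rw [← h7]
    rw [h8]
    field_simp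
    ring

lemma ge_unif {P : Place ℂ K} {π : K} (_hπ0 : π ≠ 0) (hπ : P.ord π = 1)
    {D : Derivation ℂ K K} (hD : DerReg P D) : Ge P (-1) (D π / π) := by
  have h1 : P.Reg (D π) := hD π (Or.inr (by omega))
  have h2 : Ge P (-1) π⁻¹ := Or.inr (by rw [P.ord_inv, hπ])
  rw [div_eq_mul_inv]
  have := Ge.mul (show Ge P 0 (D π) from h1) h2
  simpa using this

lemma ge_logd {P : Place ℂ K} {D : Derivation ℂ K K} (hD : DerReg P D) {f : K} (hf : f ≠ 0) :
    Ge P (-1) (D f / f) := by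
  obtain ⟨π, hπ0, hπ⟩ := exists_unif P
  obtain ⟨ε, hε0, hεo, h⟩ := logd hπ0 hπ hf
  obtain ⟨h1, h2⟩ := h D hD
  rw [h2]
  refine Ge.add ?_ (h1.mono (by omega))
  have := (Ge.intCast (P := P) (P.ord f)).mul (ge_unif hπ0 hπ hD)
  simpa using this

lemma ge_D {P : Place ℂ K} {D : Derivation ℂ K K} (hD : DerReg P D) {f : K} {n : ℤ}
    (hf : Ge P n f) : Ge P (n - 1) (D f) := by
  rcases hf with rfl | hf
  · left
    rw [map_zero]
  by_cases hf0 : f = 0
  · left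
    rw [hf0, map_zero]
  have h1 := ge_logd hD hf0
  have h2 : Ge P n f := Or.inr hf
  have h3 := h1.mul h2
  rw [div_mul_cancel₀ _ hf0] at h3
  exact h3.mono (by omega)

/-- **Logarithmic forms of degree two have simple poles.** -/
lemma log_det {P : Place ℂ K} {D₁ D₂ : Derivation ℂ K K} (h₁ : DerReg P D₁) (h₂ : DerReg P D₂)
    {u v : K} (hu : u ≠ 0) (hv : v ≠ 0) :
    Ge P (-1) (D₁ u / u * (D₂ v / v) - D₂ u / u * (D₁ v / v)) := by
  obtain ⟨π, hπ0, hπ⟩ := exists_unif P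
  obtain ⟨ε, -, -, hε⟩ := logd hπ0 hπ hu
  obtain ⟨δ, -, -, hδ⟩ := logd hπ0 hπ hv
  obtain ⟨e1, hu1⟩ := hε D₁ h₁
  obtain ⟨e2, hu2⟩ := hε D₂ h₂
  obtain ⟨d1, hv1⟩ := hδ D₁ h₁
  obtain ⟨d2, hv2⟩ := hδ D₂ h₂
  have p1 := ge_unif hπ0 hπ h₁
  have p2 := ge_unif hπ0 hπ h₂
  have hkey : D₁ u / u * (D₂ v / v) - D₂ u / u * (D₁ v / v) =
      (P.ord u : K) * (D₁ π / π * (D₂ δ / δ)) + (P.ord v : K) * (D₁ ε / ε * (D₂ π / π)) +
        D₁ ε / ε * (D₂ δ / δ) - (P.ord u : K) * (D₂ π / π * (D₁ δ / δ)) -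
        (P.ord v : K) * (D₂ ε / ε * (D₁ π / π)) - D₂ ε / ε * (D₁ δ / δ) := by
    rw [hu1, hu2, hv1, hv2]
    ring
  rw [hkey]
  have q1 : Ge P (-1) ((P.ord u : K) * (D₁ π / π * (D₂ δ / δ))) := by
    have := (Ge.intCast (P := P) (P.ord u)).mul (p1.mul d2)
    simpa using this
  have q2 : Ge P (-1) ((P.ord v : K) * (D₁ ε / ε * (D₂ π / π))) := by
    have := (Ge.intCast (P := P) (P.ord v)).mul (e1.mul p2)
    simpa using this
  have q3 : Ge P (-1) (D₁ ε / ε * (D₂ δ / δ)) := (e1.mul d2).mono (by omega)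
  have q4 : Ge P (-1) ((P.ord u : K) * (D₂ π / π * (D₁ δ / δ))) := by
    have := (Ge.intCast (P := P) (P.ord u)).mul (p2.mul d1)
    simpa using this
  have q5 : Ge P (-1) ((P.ord v : K) * (D₂ ε / ε * (D₁ π / π))) := by
    have := (Ge.intCast (P := P) (P.ord v)).mul (e2.mul p1)
    simpa using this
  have q6 : Ge P (-1) (D₂ ε / ε * (D₁ δ / δ)) := (e2.mul d1).mono (by omega)
  exact ((((q1.add q2).add q3).sub q4).sub q5).sub q6

/-- the wedge product of the differentials of `u` and `v` -/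
def wedge (D₁ D₂ : Derivation ℂ K K) (u v : K) : K := D₁ u * D₂ v - D₂ u * D₁ v

lemma ge_wedge {P : Place ℂ K} {D₁ D₂ : Derivation ℂ K K} (h₁ : DerReg P D₁) (h₂ : DerReg P D₂)
    {u v : K} (hu : u ≠ 0) (hv : v ≠ 0) : Ge P (P.ord u + P.ord v - 1) (wedge D₁ D₂ u v) := by
  have h1 := log_det h₁ h₂ hu hv
  have h2 : Ge P (P.ord u + P.ord v) (u * v) := Or.inr (by rw [P.ord_mul hu hv])
  have h3 := h2.mul h1
  have h4 : u * v * (D₁ u / u * (D₂ v / v) - D₂ u / u * (D₁ v / v)) = wedge D₁ D₂ u v := by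
    unfold wedge
    field_simp
  rw [h4] at h3
  exact h3

/-- the determinant of the coordinates and their derivatives -/
def Del (D₁ D₂ : Derivation ℂ K K) (z : Fin 3 → K) : K :=
  z 0 * wedge D₁ D₂ (z 1) (z 2) - z 1 * wedge D₁ D₂ (z 0) (z 2) + z 2 * wedge D₁ D₂ (z 0) (z 1)

lemma Del_smul (D₁ D₂ : Derivation ℂ K K) (c : K) (z : Fin 3 → K) :
    Del D₁ D₂ (fun i => c * z i) = c ^ 3 * Del D₁ D₂ z := by
  unfold Del wedge
  simp only [Derivation.leibniz, smul_eq_mul]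
  ring

lemma ge_Del {P : Place ℂ K} {D₁ D₂ : Derivation ℂ K K} (h₁ : DerReg P D₁) (h₂ : DerReg P D₂)
    {z : Fin 3 → K} (hz : ∀ i, z i ≠ 0) (h0 : P.ord (z 0) = 0) :
    Ge P (P.ord (z 1) + P.ord (z 2) - 1) (Del D₁ D₂ z) := by
  unfold Del
  have g0 : Ge P (P.ord (z 0)) (z 0) := Or.inr le_rfl
  have g1 : Ge P (P.ord (z 1)) (z 1) := Or.inr le_rfl
  have g2 : Ge P (P.ord (z 2)) (z 2) := Or.inr le_rfl
  have w12 := ge_wedge h₁ h₂ (hz 1) (hz 2)
  have d0 : ∀ D : Derivation ℂ K K, DerReg P D → Ge P 0 (D (z 0)) := fun D hD =>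
    hD _ (Or.inr h0.ge)
  have w02 : Ge P (P.ord (z 2) - 1) (wedge D₁ D₂ (z 0) (z 2)) := by
    unfold wedge
    have h3 := (d0 D₁ h₁).mul (ge_D h₂ g2)
    have h4 := (d0 D₂ h₂).mul (ge_D h₁ g2)
    exact (h3.mono (by omega)).sub (h4.mono (by omega))
  have w01 : Ge P (P.ord (z 1) - 1) (wedge D₁ D₂ (z 0) (z 1)) := by
    unfold wedge
    have h3 := (d0 D₁ h₁).mul (ge_D h₂ g1)
    have h4 := (d0 D₂ h₂).mul (ge_D h₁ g1)
    exact (h3.mono (by omega)).sub (h4.mono (by omega))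
  refine Ge.add (Ge.sub ?_ ?_) ?_
  · exact (g0.mul w12).mono (by omega)
  · exact (g1.mul w02).mono (by omega)
  · exact (g2.mul w01).mono (by omega)

lemma ge_Del_zero {P : Place ℂ K} {D₁ D₂ : Derivation ℂ K K} (h₁ : DerReg P D₁)
    (h₂ : DerReg P D₂) {z : Fin 3 → K} (hz : ∀ i, Ge P 0 (z i)) : Ge P 0 (Del D₁ D₂ z) := by
  have hw : ∀ i j, Ge P 0 (wedge D₁ D₂ (z i) (z j)) := by
    intro i j
    unfold wedge
    have h3 := Ge.mul (show Ge P 0 _ from h₁ _ (hz i)) (show Ge P 0 _ from h₂ _ (hz j))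
    have h4 := Ge.mul (show Ge P 0 _ from h₂ _ (hz i)) (show Ge P 0 _ from h₁ _ (hz j))
    exact (h3.mono (by omega)).sub (h4.mono (by omega))
  unfold Del
  refine Ge.add (Ge.sub ?_ ?_) ?_
  · exact ((hz 0).mul (hw 1 2)).mono (by omega)
  · exact ((hz 1).mul (hw 0 2)).mono (by omega)
  · exact ((hz 2).mul (hw 0 1)).mono (by omega)

/-- the value of a linear form -/
def ev (z : Fin 3 → K) (v : V3) : K := ∑ i, algebraMap ℂ K (v i) * z i

lemma ev_add (z : Fin 3 → K) (v w : V3) : ev z (v + w) = ev z v + ev z w := by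
  unfold ev
  rw [← Finset.sum_add_distrib]
  refine Finset.sum_congr rfl fun i _ => ?_
  rw [Pi.add_apply, map_add, add_mul]

lemma ev_smul (z : Fin 3 → K) (c : ℂ) (v : V3) : ev z (c • v) = algebraMap ℂ K c * ev z v := by
  unfold ev
  rw [Finset.mul_sum]
  refine Finset.sum_congr rfl fun i _ => ?_
  rw [Pi.smul_apply, smul_eq_mul, map_mul, mul_assoc]

lemma ev_zero (z : Fin 3 → K) : ev z 0 = 0 := by
  unfold ev
  exact Finset.sum_eq_zero fun i _ => by rw [Pi.zero_apply, map_zero, zero_mul]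

lemma ev_scale (z : Fin 3 → K) (c : K) (v : V3) : ev (fun i => c * z i) v = c * ev z v := by
  unfold ev
  rw [Finset.mul_sum]
  refine Finset.sum_congr rfl fun i _ => ?_
  ring

lemma ev_single (z : Fin 3 → K) (i : Fin 3) : ev z (Pi.single i 1) = z i := by
  classical
  unfold ev
  rw [Finset.sum_eq_single i]
  · rw [Pi.single_eq_same, map_one, one_mul]
  · intro j _ hj
    rw [Pi.single_eq_of_ne hj, map_zero, zero_mul]
  · intro h
    exact absurd (Finset.mem_univ i) h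

lemma aeval_lin (z : Fin 3 → K) (v : V3) : MvPolynomial.aeval z (lin v) = ev z v := by
  unfold lin ev
  rw [map_sum]
  refine Finset.sum_congr rfl fun i _ => ?_
  rw [map_mul, MvPolynomial.aeval_X, MvPolynomial.algHom_C]

/-- change of coordinates -/
lemma Del_basis (D₁ D₂ : Derivation ℂ K K) (z : Fin 3 → K) (b : Fin 3 → V3) :
    Del D₁ D₂ (fun j => ev z (b j)) =
      algebraMap ℂ K (Matrix.det (Matrix.of b)) * Del D₁ D₂ z := by
  have hD : ∀ (D : Derivation ℂ K K) (v : V3), D (ev z v) = ∑ i, algebraMap ℂ K (v i) * D (z i) := by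
    intro D v
    unfold ev
    rw [map_sum]
    refine Finset.sum_congr rfl fun i _ => ?_
    rw [D.leibniz, D.map_algebraMap, smul_zero, add_zero, smul_eq_mul]
  unfold Del wedge
  simp only [hD]
  unfold ev
  simp only [Fin.sum_univ_three, Matrix.det_fin_three, Matrix.of_apply, map_add, map_sub, map_mul]
  ring

end Pool.Agent.J4H13.LA
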