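import Pool.Agent.J4H13.LA.RegTwoB

/-!
# Regularity of the 1-forms which come from hyperelliptic curves
-/

set_option autoImplicit false

open FF

namespace Pool.Agent.J4H13.LA

open Pool.Agent.W602.GT Pool.Agent.W603.LV

variable {K : Type} [Field K] [Algebra ℂ K]

/-- the value of a form of degree one in two variables -/
def lf (M₀ M₁ : K) (a b : ℂ) : K := algebraMap ℂ K a * M₀ + algebraMap ℂ K b * M₁

/-- **Regularity.** -/
theorem reg_one {M₀ M₁ : K} (hM : ∀ a b : ℂ, (a ≠ 0 ∨ b ≠ 0) → lf M₀ M₁ a b ≠ 0) {d : ℕ}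
    (hd : 2 ≤ d) {a b : Fin (2 * d) → ℂ} (hab : ∀ i j, i ≠ j → a i * b j - a j * b i ≠ 0)
    {v : K} (hv0 : v ≠ 0) (hv : v ^ 2 = ∏ i, lf M₀ M₁ (a i) (b i)) (P : Place ℂ K)
    {D : Derivation ℂ K K} (hD : DerReg P D) :
    Ge P 0 ((M₀ * D M₁ - M₁ * D M₀) * (M₀ ^ (d - 2) / v)) := by
  classical
  have hM₀ : M₀ ≠ 0 := by
    have := hM 1 0 (Or.inl one_ne_zero)
    unfold lf at this
    simpa using this
  have hM₁ : M₁ ≠ 0 := by
    have := hM 0 1 (Or.inr one_ne_zero)
    unfold lf at this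
    simpa using this
  have hab0 : ∀ i, a i ≠ 0 ∨ b i ≠ 0 := by
    intro i
    obtain ⟨j, hj⟩ : ∃ j : Fin (2 * d), i ≠ j := by
      by_cases h0 : i = ⟨0, by omega⟩
      · refine ⟨⟨1, by omega⟩, ?_⟩
        rw [h0]
        intro h
        simp at h
      · exact ⟨_, h0⟩
    by_contra hcon
    push Not at hcon
    apply hab i j hj
    rw [hcon.1, hcon.2]
    ring
  -- normalization
  obtain ⟨c, hc, h0, h1, hmin⟩ : ∃ c : K, c ≠ 0 ∧ Ge P 0 (c * M₀) ∧ Ge P 0 (c * M₁) ∧
      (P.ord (c * M₀) = 0 ∨ P.ord (c * M₁) = 0) := by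
    rcases le_total (P.ord M₀) (P.ord M₁) with h | h
    · refine ⟨M₀⁻¹, inv_ne_zero hM₀, ?_, ?_, Or.inl ?_⟩
      · rw [inv_mul_cancel₀ hM₀]
        exact Ge.one
      · right
        rw [P.ord_mul (inv_ne_zero hM₀) hM₁, P.ord_inv]
        omega
      · rw [inv_mul_cancel₀ hM₀, P.ord_one]
    · refine ⟨M₁⁻¹, inv_ne_zero hM₁, ?_, ?_, Or.inr ?_⟩
      · right
        rw [P.ord_mul (inv_ne_zero hM₁) hM₀, P.ord_inv]
        omega
      · rw [inv_mul_cancel₀ hM₁]
        exact Ge.one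
      · rw [inv_mul_cancel₀ hM₁, P.ord_one]
  obtain ⟨N₀, hN₀⟩ : ∃ N₀, N₀ = c * M₀ := ⟨_, rfl⟩
  obtain ⟨N₁, hN₁⟩ : ∃ N₁, N₁ = c * M₁ := ⟨_, rfl⟩
  rw [← hN₀] at h0 hmin
  rw [← hN₁] at h1 hmin
  have hlf : ∀ s t, lf N₀ N₁ s t = c * lf M₀ M₁ s t := by
    intro s t
    unfold lf
    rw [hN₀, hN₁]
    ring
  have hN : ∀ s t : ℂ, (s ≠ 0 ∨ t ≠ 0) → lf N₀ N₁ s t ≠ 0 := by
    intro s t hst
    rw [hlf]
    exact mul_ne_zero hc (hM s t hst)
  have hNreg : ∀ s t : ℂ, Ge P 0 (lf N₀ N₁ s t) := by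
    intro s t
    unfold lf
    exact (((Ge.const s).mul h0).mono (by omega)).add (((Ge.const t).mul h1).mono (by omega))
  obtain ⟨u, hu⟩ : ∃ u : K, u = c ^ d * v := ⟨_, rfl⟩
  have hu0 : u ≠ 0 := hu ▸ mul_ne_zero (pow_ne_zero _ hc) hv0
  have hu2 : u ^ 2 = ∏ i, lf N₀ N₁ (a i) (b i) := by
    rw [hu, mul_pow, hv]
    simp only [hlf]
    rw [Finset.prod_mul_distrib, Finset.prod_const, Finset.card_univ, Fintype.card_fin, ← pow_mul,
      mul_comm d 2]
  have hord : 2 * P.ord u = ∑ i, P.ord (lf N₀ N₁ (a i) (b i)) := by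
    rw [← ord_prod P _ _ (fun i _ => hN _ _ (hab0 i)), ← hu2, P.ord_pow]
    push_cast
    rfl
  have hform : (M₀ * D M₁ - M₁ * D M₀) * (M₀ ^ (d - 2) / v) =
      (N₀ * D N₁ - N₁ * D N₀) * N₀ ^ (d - 2) / u := by
    rw [hu, hN₀, hN₁, D.leibniz, D.leibniz]
    simp only [smul_eq_mul]
    obtain ⟨e, rfl⟩ : ∃ e, d = e + 2 := ⟨d - 2, by omega⟩
    rw [Nat.add_sub_cancel]
    field_simp
    ring
  rw [hform]
  have hpow : Ge P 0 (N₀ ^ (d - 2)) := by
    have := h0.pow (d - 2)
    simpa using this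
  have hreg0 : ∀ f, Ge P 0 f → Ge P 0 (D f) := fun f hf => hD f hf
  have hinv : Ge P (-P.ord u) u⁻¹ := Or.inr (by rw [P.ord_inv])
  by_cases hall : ∀ i, P.ord (lf N₀ N₁ (a i) (b i)) = 0
  · have h3 : P.ord u = 0 := by
      rw [Finset.sum_congr rfl fun i _ => hall i, Finset.sum_const_zero] at hord
      omega
    rw [h3, neg_zero] at hinv
    have h4 : Ge P 0 (N₀ * D N₁ - N₁ * D N₀) :=
      ((h0.mul (hreg0 _ h1)).mono (by omega)).sub ((h1.mul (hreg0 _ h0)).mono (by omega))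
    rw [div_eq_mul_inv]
    exact ((h4.mul hpow).mul hinv).mono (by omega)
  · push Not at hall
    obtain ⟨i₀, hi₀⟩ := hall
    obtain ⟨e, he⟩ : ∃ e, e = lf N₀ N₁ (a i₀) (b i₀) := ⟨_, rfl⟩
    obtain ⟨n, hn⟩ : ∃ n, n = P.ord e := ⟨_, rfl⟩
    have he0 : e ≠ 0 := he ▸ hN _ _ (hab0 i₀)
    rw [← he, ← hn] at hi₀
    have hn1 : 1 ≤ n := by
      have := (hNreg (a i₀) (b i₀)).resolve_left (hN _ _ (hab0 i₀))
      rw [← he, ← hn] at this
      omega
    have hge : Ge P n e := Or.inr hn.le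
    have hge1 : Ge P 1 e := hge.mono hn1
    -- the other factors are units
    have hother : ∀ j, j ≠ i₀ → P.ord (lf N₀ N₁ (a j) (b j)) = 0 := by
      intro j hj
      by_contra hne
      have h3 := (hNreg (a j) (b j)).resolve_left (hN _ _ (hab0 j))
      have h4 : Ge P 1 (lf N₀ N₁ (a j) (b j)) := Or.inr (by omega)
      have hdet := hab i₀ j (Ne.symm hj)
      obtain ⟨δ, hδ⟩ : ∃ δ, δ = a i₀ * b j - a j * b i₀ := ⟨_, rfl⟩
      rw [← hδ] at hdet
      have hN₀' : N₀ = algebraMap ℂ K δ⁻¹ * (algebraMap ℂ K (b j) * e -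
          algebraMap ℂ K (b i₀) * lf N₀ N₁ (a j) (b j)) := by
        have h5 : algebraMap ℂ K (b j) * e - algebraMap ℂ K (b i₀) * lf N₀ N₁ (a j) (b j) =
            algebraMap ℂ K δ * N₀ := by
          rw [he, hδ]
          unfold lf
          rw [map_sub, map_mul, map_mul]
          ring
        rw [h5, ← mul_assoc, ← map_mul, inv_mul_cancel₀ hdet, map_one, one_mul]
      have hN₁' : N₁ = algebraMap ℂ K δ⁻¹ * (algebraMap ℂ K (a i₀) * lf N₀ N₁ (a j) (b j) -
          algebraMap ℂ K (a j) * e) := by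
        have h5 : algebraMap ℂ K (a i₀) * lf N₀ N₁ (a j) (b j) - algebraMap ℂ K (a j) * e =
            algebraMap ℂ K δ * N₁ := by
          rw [he, hδ]
          unfold lf
          rw [map_sub, map_mul, map_mul]
          ring
        rw [h5, ← mul_assoc, ← map_mul, inv_mul_cancel₀ hdet, map_one, one_mul]
      have g0 : Ge P 1 N₀ := by
        rw [hN₀']
        refine ((Ge.const _).mul (Ge.sub (((Ge.const _).mul hge1)) (((Ge.const _).mul h4)))).mono
          (by omega)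
      have g1 : Ge P 1 N₁ := by
        rw [hN₁']
        refine ((Ge.const _).mul (Ge.sub (((Ge.const _).mul h4)) (((Ge.const _).mul hge1)))).mono
          (by omega)
      rcases hmin with h | h
      · rcases g0 with g | g
        · have := hN 1 0 (Or.inl one_ne_zero)
          unfold lf at this
          apply this
          rw [g, map_zero]
          ring
        · omega
      · rcases g1 with g | g
        · have := hN 0 1 (Or.inr one_ne_zero)
          unfold lf at this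
          apply this
          rw [g, map_zero]
          ring
        · omega
    have hsum : ∑ i, P.ord (lf N₀ N₁ (a i) (b i)) = n := by
      rw [Finset.sum_eq_single i₀]
      · rw [← he, ← hn]
      · intro j _ hj
        exact hother j hj
      · intro h
        exact absurd (Finset.mem_univ _) h
    rw [hsum] at hord
    -- the numerator
    have hDe : Ge P (n - 1) (D e) := ge_D hD hge
    have hnum : Ge P (n - 1) (N₀ * D N₁ - N₁ * D N₀) := by
      have hDe' : D e = algebraMap ℂ K (a i₀) * D N₀ + algebraMap ℂ K (b i₀) * D N₁ := by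
        rw [he]
        unfold lf
        rw [map_add, D.leibniz, D.leibniz, D.map_algebraMap, D.map_algebraMap, smul_zero, smul_zero,
          add_zero, add_zero, smul_eq_mul, smul_eq_mul]
      have heq : e = algebraMap ℂ K (a i₀) * N₀ + algebraMap ℂ K (b i₀) * N₁ := he
      rcases hab0 i₀ with h | h
      · have h3 : N₀ * D N₁ - N₁ * D N₀ =
            algebraMap ℂ K (a i₀)⁻¹ * (e * D N₁ - N₁ * D e) := by
          rw [hDe', heq, map_inv₀]
          have h4 : algebraMap ℂ K (a i₀) ≠ 0 := (map_ne_zero _).2 h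
          field_simp
          ring
        rw [h3]
        refine ((Ge.const _).mul (Ge.sub ((hge.mul (hreg0 _ h1)).mono (by omega))
          ((h1.mul hDe).mono (by omega : n - 1 ≤ 0 + (n - 1))))).mono (by omega)
      · have h3 : N₀ * D N₁ - N₁ * D N₀ =
            algebraMap ℂ K (b i₀)⁻¹ * (N₀ * D e - e * D N₀) := by
          rw [hDe', heq, map_inv₀]
          have h4 : algebraMap ℂ K (b i₀) ≠ 0 := (map_ne_zero _).2 h
          field_simp
          ring
        rw [h3]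
        refine ((Ge.const _).mul (Ge.sub ((h0.mul hDe).mono (by omega : n - 1 ≤ 0 + (n - 1)))
          ((hge.mul (hreg0 _ h0)).mono (by omega)))).mono (by omega)
    rw [div_eq_mul_inv]
    exact ((hnum.mul hpow).mul hinv).mono (by omega)

end Pool.Agent.J4H13.LA
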