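import Pool.Agent.J4H13.LA.Emb
import Pool.Agent.J4H13.LA.RegOne

/-!
# Rational parametrizations of double planes
-/

set_option autoImplicit false

namespace Pool.Agent.J4H13.LA

open Pool.Agent.J4H13.BC

variable {K : Type} [Field K] [Algebra ℂ K]

/-- The conclusion: the fields between `ℂ(x, y)` and `K` are unirational. -/
def Good (x y v : K) : Prop :=
  ∃ L : IntermediateField ℂ K, x ∈ L ∧ y ∈ L ∧ v ∈ L ∧
    ∃ m : ℕ, Nonempty (L →ₐ[ℂ] FractionRing (PR m))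

section

variable {x y : K} (hxy : AlgebraicIndependent ℂ ![x, y]) {m : Fin 3 → V3}
  (hm : LinearIndependent ℂ m)

include hxy hm

lemma M_ne (j : Fin 3) : ev (gp x y) (m j) ≠ 0 := ev_gp_ne_zero hxy (hm.ne_zero j)

lemma lin_mem {L : IntermediateField ℂ K}
    (ht : ev (gp x y) (m 1) / ev (gp x y) (m 0) ∈ L)
    (hu : ev (gp x y) (m 2) / ev (gp x y) (m 0) ∈ L) : ev (gp x y) (m 0) ∈ L ∧ x ∈ L ∧ y ∈ L := by
  classical
  have hM0 := M_ne hxy hm 0
  have hall : ∀ w : V3, ∃ z ∈ L, ev (gp x y) w = ev (gp x y) (m 0) * z := by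
    intro w
    let B : Module.Basis (Fin 3) ℂ V3 := basisOfLinearIndependentOfCardEqFinrank hm (by simp)
    have hB : ∀ i, B i = m i := by
      intro i
      exact congrFun (coe_basisOfLinearIndependentOfCardEqFinrank hm _) i
    have hw : w = B.repr w 0 • m 0 + B.repr w 1 • m 1 + B.repr w 2 • m 2 := by
      conv_lhs => rw [← B.sum_repr w]
      rw [Fin.sum_univ_three, hB, hB, hB]
    refine ⟨algebraMap ℂ K (B.repr w 0) + algebraMap ℂ K (B.repr w 1) *
      (ev (gp x y) (m 1) / ev (gp x y) (m 0)) + algebraMap ℂ K (B.repr w 2) *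
      (ev (gp x y) (m 2) / ev (gp x y) (m 0)), ?_, ?_⟩
    · exact add_mem (add_mem (L.algebraMap_mem _) (mul_mem (L.algebraMap_mem _) ht))
        (mul_mem (L.algebraMap_mem _) hu)
    · conv_lhs => rw [hw]
      rw [ev_add, ev_add, ev_smul, ev_smul, ev_smul]
      field_simp
  obtain ⟨z, hz, h0⟩ := hall (Pi.single 0 1)
  rw [ev_single] at h0
  have h1 : gp x y 0 = 1 := rfl
  rw [h1] at h0
  have hM : ev (gp x y) (m 0) ∈ L := by
    rw [eq_inv_of_mul_eq_one_left h0.symm]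
    exact inv_mem hz
  refine ⟨hM, ?_, ?_⟩
  · obtain ⟨z, hz, h⟩ := hall (Pi.single 1 1)
    rw [ev_single] at h
    have h2 : gp x y 1 = x := rfl
    rw [← h2, h]
    exact mul_mem hM hz
  · obtain ⟨z, hz, h⟩ := hall (Pi.single 2 1)
    rw [ev_single] at h
    have h2 : gp x y 2 = y := rfl
    rw [← h2, h]
    exact mul_mem hM hz

lemma prod_mem {L : IntermediateField ℂ K}
    (ht : ev (gp x y) (m 1) / ev (gp x y) (m 0) ∈ L) {n : ℕ} {l : Fin n → V3}
    (hl0 : ∀ i, l i ≠ 0) (T : Finset (Fin n))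
    (hT : ∀ i ∈ T, l i ∈ Submodule.span ℂ {m 0, m 1}) :
    ∃ c ∈ L, c ≠ 0 ∧ ∏ i ∈ T, ev (gp x y) (l i) = ev (gp x y) (m 0) ^ T.card * c := by
  classical
  have hM0 := M_ne hxy hm 0
  induction T using Finset.induction_on with
  | empty => exact ⟨1, one_mem L, one_ne_zero, by simp⟩
  | insert a T ha ih =>
    obtain ⟨c, hc, hc0, h⟩ := ih fun i hi => hT i (Finset.mem_insert_of_mem hi)
    obtain ⟨α, β, hαβ⟩ := Submodule.mem_span_pair.1 (hT a (Finset.mem_insert_self a T))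
    have h1 : ev (gp x y) (l a) = ev (gp x y) (m 0) * (algebraMap ℂ K α + algebraMap ℂ K β *
        (ev (gp x y) (m 1) / ev (gp x y) (m 0))) := by
      rw [← hαβ, ev_add, ev_smul, ev_smul]
      field_simp
    refine ⟨(algebraMap ℂ K α + algebraMap ℂ K β *
        (ev (gp x y) (m 1) / ev (gp x y) (m 0))) * c, mul_mem (add_mem (L.algebraMap_mem _)
          (mul_mem (L.algebraMap_mem _) ht)) hc, ?_, ?_⟩
    · refine mul_ne_zero ?_ hc0
      intro h2
      rw [h2, mul_zero] at h1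
      exact ev_gp_ne_zero hxy (hl0 a) h1
    · rw [Finset.prod_insert ha, Finset.card_insert_of_notMem ha, h, h1]
      ring

/-- All lines but one pass through a point. -/
theorem good_one {n d : ℕ} {l : Fin n → V3} (hl0 : ∀ i, l i ≠ 0) (T : Finset (Fin n))
    (hT : ∀ i ∈ T, l i ∈ Submodule.span ℂ {m 0, m 1}) (hcard : T.card + 1 = 2 * d) {v : K}
    (hv : v ^ 2 = (∏ i ∈ T, ev (gp x y) (l i)) * ev (gp x y) (m 2)) : Good x y v := by
  classical
  have hM0 := M_ne hxy hm 0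
  obtain ⟨M₀, hM₀⟩ : ∃ M₀, M₀ = ev (gp x y) (m 0) := ⟨_, rfl⟩
  obtain ⟨t, ht⟩ : ∃ t, t = ev (gp x y) (m 1) / ev (gp x y) (m 0) := ⟨_, rfl⟩
  obtain ⟨u, hu⟩ : ∃ u, u = ev (gp x y) (m 2) / ev (gp x y) (m 0) := ⟨_, rfl⟩
  obtain ⟨s, hs⟩ : ∃ s, s = v / M₀ ^ d := ⟨_, rfl⟩
  have htL : t ∈ IntermediateField.adjoin ℂ {t, s} :=
    IntermediateField.subset_adjoin _ _ (by simp)
  have hsL : s ∈ IntermediateField.adjoin ℂ {t, s} :=
    IntermediateField.subset_adjoin _ _ (by simp)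
  obtain ⟨c, hc, hc0, hprod⟩ := prod_mem hxy hm (L := IntermediateField.adjoin ℂ {t, s})
    (by rw [← ht]; exact htL) hl0 T hT
  rw [← hM₀] at hM0 hprod
  have hMu : ev (gp x y) (m 2) = M₀ * u := by
    rw [hu, ← hM₀]
    field_simp
  have hs2 : s ^ 2 = c * u := by
    rw [hs, div_pow, hv, hprod, hMu, ← pow_mul, mul_comm d 2, ← hcard, pow_succ]
    field_simp
  have huL : u ∈ IntermediateField.adjoin ℂ {t, s} := by
    have h1 : u = s ^ 2 / c := by
      rw [hs2]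
      field_simp
    rw [h1]
    exact div_mem (pow_mem hsL 2) hc
  obtain ⟨h0, hx, hy⟩ := lin_mem hxy hm (L := IntermediateField.adjoin ℂ {t, s})
    (by rw [← ht]; exact htL) (by rw [← hu]; exact huL)
  refine ⟨_, hx, hy, ?_, 2, embed_of_two hxy hx hy⟩
  have h2 : v = s * M₀ ^ d := by
    rw [hs]
    field_simp
  rw [h2]
  rw [← hM₀] at h0
  exact mul_mem hsL (pow_mem h0 d)

/-- All lines but two pass through a point. -/
theorem good_two {n d : ℕ} {l : Fin n → V3} (hl0 : ∀ i, l i ≠ 0) (T : Finset (Fin n))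
    (hT : ∀ i ∈ T, l i ∈ Submodule.span ℂ {m 0, m 1}) (hcard : T.card + 2 = 2 * d) {m' : V3}
    (hm' : LinearIndependent ℂ ![m', m 2]) {v : K}
    (hv : v ^ 2 = (∏ i ∈ T, ev (gp x y) (l i)) * (ev (gp x y) (m 2) * ev (gp x y) m')) :
    Good x y v := by
  classical
  have hM0 := M_ne hxy hm 0
  have hM2 := M_ne hxy hm 2
  obtain ⟨M₀, hM₀⟩ : ∃ M₀, M₀ = ev (gp x y) (m 0) := ⟨_, rfl⟩
  obtain ⟨t, ht⟩ : ∃ t, t = ev (gp x y) (m 1) / ev (gp x y) (m 0) := ⟨_, rfl⟩
  obtain ⟨u, hu⟩ : ∃ u, u = ev (gp x y) (m 2) / ev (gp x y) (m 0) := ⟨_, rfl⟩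
  have hu0 : u ≠ 0 := hu ▸ div_ne_zero hM2 hM0
  obtain ⟨s, hs⟩ : ∃ s, s = v / (M₀ ^ d * u) := ⟨_, rfl⟩
  have htL : t ∈ IntermediateField.adjoin ℂ {t, s} :=
    IntermediateField.subset_adjoin _ _ (by simp)
  have hsL : s ∈ IntermediateField.adjoin ℂ {t, s} :=
    IntermediateField.subset_adjoin _ _ (by simp)
  obtain ⟨c, hc, hc0, hprod⟩ := prod_mem hxy hm (L := IntermediateField.adjoin ℂ {t, s})
    (by rw [← ht]; exact htL) hl0 T hT
  rw [← hM₀] at hM0 hprod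
  have hMu : ev (gp x y) (m 2) = M₀ * u := by
    rw [hu, ← hM₀]
    field_simp
  -- the second line
  let B : Module.Basis (Fin 3) ℂ V3 := basisOfLinearIndependentOfCardEqFinrank hm (by simp)
  have hB : ∀ i, B i = m i := by
    intro i
    exact congrFun (coe_basisOfLinearIndependentOfCardEqFinrank hm _) i
  obtain ⟨α, hα⟩ : ∃ α, α = B.repr m' 0 := ⟨_, rfl⟩
  obtain ⟨β, hβ⟩ : ∃ β, β = B.repr m' 1 := ⟨_, rfl⟩
  obtain ⟨γ, hγ⟩ : ∃ γ, γ = B.repr m' 2 := ⟨_, rfl⟩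
  have hw : m' = α • m 0 + β • m 1 + γ • m 2 := by
    conv_lhs => rw [← B.sum_repr m']
    rw [Fin.sum_univ_three, hB, hB, hB, hα, hβ, hγ]
  have hev' : ev (gp x y) m' = M₀ * (algebraMap ℂ K γ * u + (algebraMap ℂ K α +
      algebraMap ℂ K β * t)) := by
    rw [hw, ev_add, ev_add, ev_smul, ev_smul, ev_smul, hMu, ← hM₀, ht, ← hM₀]
    field_simp
    ring
  obtain ⟨δ, hδ⟩ : ∃ δ, δ = algebraMap ℂ K α + algebraMap ℂ K β * t := ⟨_, rfl⟩
  rw [← hδ] at hev'
  have hδ0 : δ ≠ 0 := by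
    intro h
    have h1 : ev (gp x y) (α • m 0 + β • m 1) = 0 := by
      rw [ev_add, ev_smul, ev_smul]
      have h2 : M₀ * δ = 0 := by rw [h, mul_zero]
      rw [← h2, hδ, ht, ← hM₀]
      field_simp
    have h3 : α • m 0 + β • m 1 = 0 := by
      by_contra hne
      exact ev_gp_ne_zero hxy hne h1
    rw [h3, zero_add] at hw
    have h4 := LinearIndependent.pair_iff.1 hm' 1 (-γ) (by
      rw [hw, one_smul, neg_smul, add_neg_cancel])
    exact one_ne_zero h4.1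
  have hs2 : s ^ 2 * u = c * (algebraMap ℂ K γ * u + δ) := by
    rw [hs, div_pow, hv, hprod, hMu, hev', mul_pow, ← pow_mul, mul_comm d 2, ← hcard]
    field_simp
    ring
  have hne : s ^ 2 - c * algebraMap ℂ K γ ≠ 0 := by
    intro h
    have h1 : c * δ = 0 := by
      linear_combination u * h - hs2
    exact (mul_ne_zero hc0 hδ0) h1
  have hδL : δ ∈ IntermediateField.adjoin ℂ {t, s} := by
    rw [hδ]
    exact add_mem (IntermediateField.algebraMap_mem _ _)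
      (mul_mem (IntermediateField.algebraMap_mem _ _) htL)
  have huL : u ∈ IntermediateField.adjoin ℂ {t, s} := by
    have h1 : u = c * δ / (s ^ 2 - c * algebraMap ℂ K γ) := by
      rw [eq_div_iff hne]
      linear_combination hs2
    rw [h1]
    exact div_mem (mul_mem hc hδL) (sub_mem (pow_mem hsL 2)
      (mul_mem hc (IntermediateField.algebraMap_mem _ _)))
  obtain ⟨h0, hx, hy⟩ := lin_mem hxy hm (L := IntermediateField.adjoin ℂ {t, s})
    (by rw [← ht]; exact htL) (by rw [← hu]; exact huL)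
  refine ⟨_, hx, hy, ?_, 2, embed_of_two hxy hx hy⟩
  have h2 : v = s * (M₀ ^ d * u) := by
    rw [hs]
    field_simp
  rw [h2]
  rw [← hM₀] at h0
  exact mul_mem hsL (mul_mem (pow_mem h0 d) huL)

end

end Pool.Agent.J4H13.LA
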