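import Pool.Agent.J4H13.LA.Ord

/-!
# Regularity of the 2-forms
-/

set_option autoImplicit false

open FF

namespace Pool.Agent.J4H13.LA

open Pool.Agent.W602.GT Pool.Agent.W603.LV

variable {K : Type} [Field K] [Algebra ℂ K]

/-- the linear forms which are positive at the place -/
def WP (P : Place ℂ K) (z : Fin 3 → K) : Submodule ℂ V3 where
  carrier := {v | Ge P 1 (ev z v)}
  add_mem' := by
    intro a b ha hb
    rw [Set.mem_ofPred_eq, ev_add]
    exact Ge.add ha hb
  zero_mem' := by
    rw [Set.mem_ofPred_eq, ev_zero]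
    exact Ge.zero
  smul_mem' := by
    intro c a ha
    rw [Set.mem_ofPred_eq, ev_smul]
    exact ((Ge.const c).mul ha).mono (by omega)

lemma mem_WP {P : Place ℂ K} {z : Fin 3 → K} {v : V3} : v ∈ WP P z ↔ Ge P 1 (ev z v) := Iff.rfl

variable {P : Place ℂ K} {z : Fin 3 → K}

lemma ev_reg (hz : ∀ i, Ge P 0 (z i)) (v : V3) : Ge P 0 (ev z v) := by
  unfold ev
  refine Ge.sum _ _ fun i _ => ?_
  exact ((Ge.const (v i)).mul (hz i)).mono (by omega)

lemma ord_of_notMem (hz : ∀ i, Ge P 0 (z i)) {v : V3} (hv : v ∉ WP P z) :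
    P.ord (ev z v) = 0 := by
  rw [mem_WP] at hv
  have h1 := ev_reg hz v
  rcases h1 with h1 | h1
  · exact absurd (Or.inl h1) hv
  · by_contra hne
    exact hv (Or.inr (by omega))

/-- **Coordinates at a place.** -/
lemma exists_coords (hz : ∀ i, Ge P 0 (z i)) (hne : ∀ v : V3, v ≠ 0 → ev z v ≠ 0)
    {i₀ : Fin 3} (hi₀ : P.ord (z i₀) = 0) (hW : WP P z ≠ ⊥) :
    ∃ b : Fin 3 → V3, LinearIndependent ℂ b ∧ P.ord (ev z (b 0)) = 0 ∧
      0 ≤ P.ord (ev z (b 1)) ∧ P.ord (ev z (b 1)) ≤ P.ord (ev z (b 2)) ∧
      1 ≤ P.ord (ev z (b 2)) ∧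
      (∀ w ∈ WP P z, w ≠ 0 → P.ord (ev z (b 1)) ≤ P.ord (ev z w)) ∧
      (∀ w ∈ WP P z, w ∉ Submodule.span ℂ {b 2} → P.ord (ev z w) ≤ P.ord (ev z (b 1))) := by
  classical
  obtain ⟨W, hWdef⟩ : ∃ W, W = WP P z := ⟨_, rfl⟩
  rw [← hWdef] at hW ⊢
  have hWpos : ∀ w ∈ W, w ≠ 0 → 1 ≤ P.ord (ev z w) := by
    intro w hw hw0
    rw [hWdef] at hw
    exact hw.resolve_left (hne w hw0)
  have hnotW : ∀ w, w ∉ W → P.ord (ev z w) = 0 := by
    intro w hw
    rw [hWdef] at hw
    exact ord_of_notMem hz hw
  have he₀ : (Pi.single i₀ 1 : V3) ∉ W := by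
    intro h
    have h1 := hWpos _ h (by
      intro h2
      have := congrFun h2 i₀
      simp at this)
    rw [ev_single, hi₀] at h1
    omega
  have hWtop : Module.finrank ℂ W < 3 := by
    have h1 : W < ⊤ := lt_top_iff_ne_top.2 fun h => he₀ (by rw [h]; trivial)
    have h2 := Submodule.finrank_lt_finrank_of_lt h1
    rw [finrank_top] at h2
    simpa using h2
  by_cases h2 : ∃ w₁ ∈ W, ∃ w₂ ∈ W, LinearIndependent ℂ ![w₁, w₂]
  · -- the subspace has dimension two
    obtain ⟨w₁, hw₁, w₂, hw₂, hind⟩ := h2
    have hspan : ∀ w ∈ W, ∃ s t : ℂ, w = s • w₁ + t • w₂ := by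
      intro w hw
      have h3 : W = Submodule.span ℂ {w₁, w₂} := by
        symm
        apply Submodule.eq_of_le_of_finrank_le
        · rw [Submodule.span_le]
          rintro x (rfl | hx)
          · exact hw₁
          · rw [Set.mem_singleton_iff] at hx
            rw [hx]
            exact hw₂
        · have h4 := finrank_span_eq_card hind
          have h5 : Set.range ![w₁, w₂] = {w₁, w₂} := by
            rw [Matrix.range_cons, Matrix.range_cons, Matrix.range_empty, Set.union_empty]
            rfl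
          rw [h5, Fintype.card_fin] at h4
          rw [h4]
          omega
      rw [h3, Submodule.mem_span_pair] at hw
      obtain ⟨s, t, h⟩ := hw
      exact ⟨s, t, h.symm⟩
    -- the minimal order
    obtain ⟨b₁, hb₁W, hb₁0, hmin⟩ : ∃ b₁ ∈ W, b₁ ≠ 0 ∧
        ∀ w ∈ W, w ≠ 0 → P.ord (ev z b₁) ≤ P.ord (ev z w) := by
      have h3 : ∃ n : ℕ, ∃ w ∈ W, w ≠ 0 ∧ P.ord (ev z w) = n := by
        have h4 := hWpos w₁ hw₁ (hind.ne_zero 0)
        exact ⟨(P.ord (ev z w₁)).toNat, w₁, hw₁, hind.ne_zero 0, by omega⟩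
      obtain ⟨w, hw, hw0, hwn⟩ := Nat.find_spec h3
      refine ⟨w, hw, hw0, fun w' hw' hw'0 => ?_⟩
      have h5 := hWpos w' hw' hw'0
      have h6 := Nat.find_min' h3 ⟨w', hw', hw'0,
        (by omega : P.ord (ev z w') = ((P.ord (ev z w')).toNat : ℕ))⟩
      rw [hwn]
      omega
    obtain ⟨a, ha⟩ : ∃ a, a = P.ord (ev z b₁) := ⟨_, rfl⟩
    have ha1 : 1 ≤ a := by
      rw [ha]
      exact hWpos b₁ hb₁W hb₁0
    -- the second vector
    obtain ⟨b₂, hb₂W, hb₂0, hind2, hmax⟩ : ∃ b₂ ∈ W, b₂ ≠ 0 ∧ LinearIndependent ℂ ![b₁, b₂] ∧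
        ∀ w ∈ W, w ∉ Submodule.span ℂ {b₂} → P.ord (ev z w) ≤ a := by
      by_cases h3 : ∃ b ∈ W, b ≠ 0 ∧ a < P.ord (ev z b)
      · obtain ⟨b, hbW, hb0, hba⟩ := h3
        have hsum : ∀ s t : ℂ, s ≠ 0 → P.ord (ev z (s • b₁ + t • b)) = a := by
          intro s t hs
          have h4 : P.ord (ev z (s • b₁)) = a := by
            rw [ev_smul, P.ord_mul ((map_ne_zero _).2 hs) (hne _ hb₁0), P.ord_const hs, zero_add, ha]
          by_cases ht : t = 0
          · rw [ht, zero_smul, add_zero, h4]
          · have h5 : P.ord (ev z (t • b)) = P.ord (ev z b) := by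
              rw [ev_smul, P.ord_mul ((map_ne_zero _).2 ht) (hne _ hb0), P.ord_const ht, zero_add]
            rw [ev_add]
            rw [(P.ord_add_eq (hne _ (smul_ne_zero hs hb₁0)) (hne _ (smul_ne_zero ht hb0))
              (by rw [h4, h5]; exact hba)).2, h4]
        have hindb : LinearIndependent ℂ ![b₁, b] := by
          rw [LinearIndependent.pair_iff]
          intro s t hst
          by_cases hs : s = 0
          · rw [hs, zero_smul, zero_add] at hst
            exact ⟨hs, (smul_eq_zero.1 hst).resolve_right hb0⟩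
          · exfalso
            have h4 := hsum s t hs
            rw [hst, ev_zero, P.ord_zero] at h4
            omega
        refine ⟨b, hbW, hb0, hindb, ?_⟩
        intro w hw hwb
        -- write `w` in terms of `b₁` and `b`
        have h4 : W = Submodule.span ℂ {b₁, b} := by
          symm
          apply Submodule.eq_of_le_of_finrank_le
          · rw [Submodule.span_le]
            rintro x (rfl | hx)
            · exact hb₁W
            · rw [Set.mem_singleton_iff] at hx
              rw [hx]
              exact hbW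
          · have h4 := finrank_span_eq_card hindb
            have h5 : Set.range ![b₁, b] = {b₁, b} := by
              rw [Matrix.range_cons, Matrix.range_cons, Matrix.range_empty, Set.union_empty]
              rfl
            rw [h5, Fintype.card_fin] at h4
            rw [h4]
            omega
        rw [h4, Submodule.mem_span_pair] at hw
        obtain ⟨s, t, h⟩ := hw
        have hs : s ≠ 0 := by
          rintro rfl
          apply hwb
          rw [← h, zero_smul, zero_add]
          exact Submodule.smul_mem _ _ (Submodule.mem_span_singleton_self b)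
        rw [← h, hsum s t hs]
      · push Not at h3
        -- a vector independent of `b₁`
        obtain ⟨b, hbW, hindb⟩ : ∃ b ∈ W, LinearIndependent ℂ ![b₁, b] := by
          by_contra hcon
          push Not at hcon
          have h4 : ∀ w ∈ W, ∃ c : ℂ, w = c • b₁ := by
            intro w hw
            have h5 := hcon w hw
            rw [LinearIndependent.pair_iff] at h5
            push Not at h5
            obtain ⟨s, t, hst, h6⟩ := h5
            by_cases ht : t = 0
            · rw [ht, zero_smul, add_zero] at hst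
              have hs : s = 0 := (smul_eq_zero.1 hst).resolve_right hb₁0
              exact absurd ht (h6 hs)
            · refine ⟨-(s / t), ?_⟩
              have h7 : w = t⁻¹ • (t • w) := by
                rw [smul_smul, inv_mul_cancel₀ ht, one_smul]
              rw [h7, eq_neg_of_add_eq_zero_right hst, smul_neg, smul_smul, neg_smul]
              congr 2
              field_simp
          obtain ⟨c₁, hc₁⟩ := h4 w₁ hw₁
          obtain ⟨c₂, hc₂⟩ := h4 w₂ hw₂
          rw [LinearIndependent.pair_iff] at hind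
          have hc₁0 : c₁ ≠ 0 := by
            rintro rfl
            have := hind 1 0 (by rw [hc₁, zero_smul, smul_zero, zero_smul, zero_add])
            exact one_ne_zero this.1
          have := hind c₂ (-c₁) (by
            rw [hc₁, hc₂, smul_smul, neg_smul, smul_smul, mul_comm c₂ c₁, add_neg_cancel])
          exact hc₁0 (neg_eq_zero.1 this.2)
        have hb0 : b ≠ 0 := hindb.ne_zero 1
        refine ⟨b, hbW, hb0, hindb, ?_⟩
        intro w hw hwb
        have hw0 : w ≠ 0 := fun h => hwb (by rw [h]; exact Submodule.zero_mem _)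
        exact h3 w hw hw0
    -- the third vector
    obtain ⟨v, hv⟩ := exists_linearIndependent_cons_of_lt_finrank (R := ℂ) (M := V3) hind2 (by simp)
    have hv' : LinearIndependent ℂ ![v, b₁, b₂] := hv
    have hvW : v ∉ W := by
      intro hvW
      have h3 : LinearIndependent ℂ (fun i : Fin 3 => (⟨![v, b₁, b₂] i, by
          fin_cases i
          · exact hvW
          · exact hb₁W
          · exact hb₂W⟩ : W)) := by
        apply LinearIndependent.of_comp W.subtype
        exact hv'
      have h4 := h3.fintype_card_le_finrank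
      rw [Fintype.card_fin] at h4
      omega
    refine ⟨![v, b₁, b₂], hv', ?_, ?_, ?_, ?_, ?_, ?_⟩
    · exact hnotW v hvW
    · change 0 ≤ P.ord (ev z b₁)
      omega
    · exact hmin b₂ hb₂W hb₂0
    · exact hWpos b₂ hb₂W hb₂0
    · exact fun w hw hw0 => hmin w hw hw0
    · intro w hw hwb
      change P.ord (ev z w) ≤ P.ord (ev z b₁)
      rw [← ha]
      exact hmax w hw hwb
  · -- the subspace has dimension one
    push Not at h2
    obtain ⟨b₂, hb₂W, hb₂0⟩ := (Submodule.ne_bot_iff _).1 hW
    have hspan : ∀ w ∈ W, w ∈ Submodule.span ℂ {b₂} := by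
      intro w hw
      have h5 := h2 b₂ hb₂W w hw
      rw [LinearIndependent.pair_iff] at h5
      push Not at h5
      obtain ⟨s, t, hst, h6⟩ := h5
      by_cases ht : t = 0
      · rw [ht, zero_smul, add_zero] at hst
        have hs : s = 0 := (smul_eq_zero.1 hst).resolve_right hb₂0
        exact absurd ht (h6 hs)
      · rw [Submodule.mem_span_singleton]
        refine ⟨-(s / t), ?_⟩
        have h7 : w = t⁻¹ • (t • w) := by
          rw [smul_smul, inv_mul_cancel₀ ht, one_smul]
        rw [h7, eq_neg_of_add_eq_zero_right hst, smul_neg, smul_smul, neg_smul]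
        congr 2
        field_simp
    have hind1 : LinearIndependent ℂ ![b₂] := by
      rw [linearIndependent_unique_iff]
      exact hb₂0
    obtain ⟨v₁, hv₁⟩ := exists_linearIndependent_cons_of_lt_finrank (R := ℂ) (M := V3) hind1 (by simp)
    have hv₁' : LinearIndependent ℂ ![v₁, b₂] := hv₁
    obtain ⟨v₀, hv₀⟩ := exists_linearIndependent_cons_of_lt_finrank (R := ℂ) (M := V3) hv₁' (by simp)
    have hv₀' : LinearIndependent ℂ ![v₀, v₁, b₂] := hv₀
    have hv₁W : v₁ ∉ W := by
      intro h
      exact h2 v₁ h b₂ hb₂W hv₁'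
    have hv₀W : v₀ ∉ W := by
      intro h
      apply h2 v₀ h b₂ hb₂W
      have := hv₀'.comp ![0, 2] (by decide)
      convert this using 1
      ext i
      fin_cases i <;> rfl
    refine ⟨![v₀, v₁, b₂], hv₀', ?_, ?_, ?_, ?_, ?_, ?_⟩
    · exact hnotW v₀ hv₀W
    · exact (hnotW v₁ hv₁W).ge
    · change P.ord (ev z v₁) ≤ P.ord (ev z b₂)
      rw [hnotW v₁ hv₁W]
      have := hWpos b₂ hb₂W hb₂0
      omega
    · exact hWpos b₂ hb₂W hb₂0
    · intro w hw hw0
      change P.ord (ev z v₁) ≤ _
      rw [hnotW v₁ hv₁W]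
      have := hWpos w hw hw0
      omega
    · intro w hw hwb
      exact absurd (hspan w hw) hwb

end Pool.Agent.J4H13.LA
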