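import Pool.Agent.J4H13.LA.RegTwo
import Pool.Agent.Helper397.HK.Basic

/-!
# Regularity of the 2-forms: the theorem
-/

set_option autoImplicit false

open FF

namespace Pool.Agent.J4H13.LA

open Pool.Agent.W602.GT Pool.Agent.W603.LV

variable {K : Type} [Field K] [Algebra ℂ K]

/-- the generic point of the plane -/
def gp (x y : K) : Fin 3 → K := ![1, x, y]

lemma ev_gp (x y : K) (v : V3) :
    ev (gp x y) v = algebraMap ℂ K (v 0) + algebraMap ℂ K (v 1) * x + algebraMap ℂ K (v 2) * y := by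
  unfold ev gp
  rw [Fin.sum_univ_three]
  simp

lemma ev_gp_ne_zero {x y : K} (hxy : AlgebraicIndependent ℂ ![x, y]) {v : V3} (hv : v ≠ 0) :
    ev (gp x y) v ≠ 0 := by
  intro h
  apply hv
  have h1 : MvPolynomial.aeval ![x, y] (MvPolynomial.C (v 0) + MvPolynomial.C (v 1) *
      MvPolynomial.X 0 + MvPolynomial.C (v 2) * MvPolynomial.X 1 : MvPolynomial (Fin 2) ℂ) = 0 := by
    rw [map_add, map_add, map_mul, map_mul, MvPolynomial.aeval_X, MvPolynomial.aeval_X,
      MvPolynomial.algHom_C, MvPolynomial.algHom_C, MvPolynomial.algHom_C]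
    rw [← h, ev_gp]
    rfl
  have h2 := (algebraicIndependent_iff.1 hxy) _ h1
  have h3 : ∀ a b : ℂ, v 0 + v 1 * a + v 2 * b = 0 := by
    intro a b
    have := congrArg (MvPolynomial.eval ![a, b]) h2
    simpa using this
  have h00 := h3 0 0
  have h10 := h3 1 0
  have h01 := h3 0 1
  simp at h00
  rw [h00] at h10 h01
  simp at h10 h01
  funext i
  fin_cases i
  · exact h00
  · exact h10
  · exact h01

lemma Del_gp (D₁ D₂ : Derivation ℂ K K) (x y : K) : Del D₁ D₂ (gp x y) = wedge D₁ D₂ x y := by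
  unfold Del gp wedge
  simp

/-- the polynomials of large order -/
def JP (P : Place ℂ K) (z : Fin 3 → K) (hz : ∀ i, Ge P 0 (z i)) (c : ℤ) : Ideal P3 where
  carrier := {Q | Ge P c (MvPolynomial.aeval z Q)}
  add_mem' := by
    intro a b ha hb
    rw [Set.mem_ofPred_eq, map_add]
    exact Ge.add ha hb
  zero_mem' := by
    rw [Set.mem_ofPred_eq, map_zero]
    exact Ge.zero
  smul_mem' := by
    intro a b hb
    rw [Set.mem_ofPred_eq, smul_eq_mul, map_mul]
    have ha : Ge P 0 (MvPolynomial.aeval z a) := by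
      induction a using MvPolynomial.induction_on with
      | C a =>
        rw [MvPolynomial.algHom_C]
        exact Ge.const a
      | add p q hp hq =>
        rw [map_add]
        exact hp.add hq
      | mul_X p i hp =>
        rw [map_mul, MvPolynomial.aeval_X]
        exact (hp.mul (hz i)).mono (by omega)
    exact (ha.mul hb).mono (by omega)

lemma ge_of_mem_pow {P : Place ℂ K} {z : Fin 3 → K} (hz : ∀ i, Ge P 0 (z i)) {W : Submodule ℂ V3}
    {a : ℤ} (hW : ∀ w ∈ W, Ge P a (ev z w)) {m : ℕ} {Q : P3} (hQ : Q ∈ IW W ^ m) :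
    Ge P (m * a) (MvPolynomial.aeval z Q) := by
  have h1 : IW W ≤ JP P z hz a := by
    unfold IW
    rw [Ideal.span_le]
    rintro _ ⟨w, hw, rfl⟩
    change Ge P a _
    rw [aeval_lin]
    exact hW w hw
  have h2 : ∀ m : ℕ, IW W ^ m ≤ JP P z hz (m * a) := by
    intro m
    induction m with
    | zero =>
      intro Q _
      have : JP P z hz ((0 : ℕ) * a) = ⊤ := by
        rw [Ideal.eq_top_iff_one]
        change Ge P _ (MvPolynomial.aeval z 1)
        rw [map_one, Nat.cast_zero, zero_mul]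
        exact Ge.one
      rw [this]
      trivial
    | succ m ih =>
      rw [pow_succ, Ideal.mul_le]
      intro q hq w hw
      have h3 : Ge P (m * a) (MvPolynomial.aeval z q) := ih hq
      have h4 : Ge P a (MvPolynomial.aeval z w) := h1 hw
      change Ge P _ (MvPolynomial.aeval z (q * w))
      rw [map_mul]
      refine (h3.mul h4).mono (le_of_eq ?_)
      push_cast
      ring
  exact h2 m hQ

/-- Normalization of the coordinates. -/
lemma exists_scale (P : Place ℂ K) {x : Fin 3 → K} (hx : ∀ i, x i ≠ 0) :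
    ∃ c : K, c ≠ 0 ∧ (∀ i, Ge P 0 (c * x i)) ∧ ∃ i₀, P.ord (c * x i₀) = 0 := by
  obtain ⟨i₀, hi₀⟩ := Finite.exists_min (fun i => P.ord (x i))
  refine ⟨(x i₀)⁻¹, inv_ne_zero (hx i₀), fun i => ?_, i₀, ?_⟩
  · right
    rw [P.ord_mul (inv_ne_zero (hx i₀)) (hx i), P.ord_inv]
    have := hi₀ i
    omega
  · rw [inv_mul_cancel₀ (hx i₀), P.ord_one]

lemma ord_prod {ι : Type} (P : Place ℂ K) (s : Finset ι) (f : ι → K) (hf : ∀ i ∈ s, f i ≠ 0) :
    P.ord (∏ i ∈ s, f i) = ∑ i ∈ s, P.ord (f i) := by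
  classical
  induction s using Finset.induction_on with
  | empty => rw [Finset.prod_empty, Finset.sum_empty, P.ord_one]
  | insert a s ha ih =>
    rw [Finset.prod_insert ha, Finset.sum_insert ha, P.ord_mul (hf a (Finset.mem_insert_self a s))
      (Finset.prod_ne_zero_iff.2 fun i hi => hf i (Finset.mem_insert_of_mem hi)),
      ih fun i hi => hf i (Finset.mem_insert_of_mem hi)]

/-- **Regularity.** -/
theorem reg_two {x y : K} (hxy : AlgebraicIndependent ℂ ![x, y]) {d : ℕ} (hd : 3 ≤ d)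
    {l : Fin (2 * d) → V3} (hl : ∀ i j, i ≠ j → LinearIndependent ℂ ![l i, l j])
    {v : K} (hv0 : v ≠ 0) (hv : v ^ 2 = ∏ i, ev (gp x y) (l i)) {Q : P3}
    (hQ : Q.IsHomogeneous (d - 3))
    (hmult : ∀ W : Submodule ℂ V3, Module.finrank ℂ W ≤ 2 → Q ∈ IW W ^ ((thr l W).card / 2 - 1))
    (P : Place ℂ K) {D₁ D₂ : Derivation ℂ K K} (h₁ : DerReg P D₁) (h₂ : DerReg P D₂) :
    Ge P 0 (wedge D₁ D₂ x y * (MvPolynomial.aeval (gp x y) Q / v)) := by
  classical
  rw [← Del_gp]
  have hne := fun v (hv : v ≠ 0) => ev_gp_ne_zero hxy (v := v) hv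
  have hgp : ∀ i, gp x y i ≠ 0 := by
    intro i
    rw [← ev_single (gp x y) i]
    apply hne
    intro h
    have := congrFun h i
    simp at this
  have hl0 : ∀ i : Fin (2 * d), l i ≠ 0 := by
    intro i
    obtain ⟨j, hj⟩ : ∃ j : Fin (2 * d), i ≠ j := by
      by_cases h0 : i = ⟨0, by omega⟩
      · refine ⟨⟨1, by omega⟩, ?_⟩
        rw [h0]
        intro h
        simp at h
      · exact ⟨_, h0⟩
    exact (hl i j hj).ne_zero 0
  obtain ⟨c, hc, hreg, i₀, hi₀⟩ := exists_scale P hgp
  obtain ⟨z, hz⟩ : ∃ z : Fin 3 → K, z = fun i => c * gp x y i := ⟨_, rfl⟩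
  have hzreg : ∀ i, Ge P 0 (z i) := by
    intro i
    rw [hz]
    exact hreg i
  have hzi₀ : P.ord (z i₀) = 0 := by
    rw [hz]
    exact hi₀
  have hevz : ∀ w, ev z w = c * ev (gp x y) w := by
    intro w
    rw [hz, ev_scale]
  have hzne : ∀ w : V3, w ≠ 0 → ev z w ≠ 0 := by
    intro w hw
    rw [hevz]
    exact mul_ne_zero hc (hne w hw)
  -- the scaled root
  obtain ⟨u, hu⟩ : ∃ u : K, u = c ^ d * v := ⟨_, rfl⟩
  have hu0 : u ≠ 0 := hu ▸ mul_ne_zero (pow_ne_zero _ hc) hv0
  have hu2 : u ^ 2 = ∏ i, ev z (l i) := by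
    rw [hu, mul_pow, hv]
    simp only [hevz]
    rw [Finset.prod_mul_distrib, Finset.prod_const, Finset.card_univ, Fintype.card_fin, ← pow_mul,
      mul_comm d 2]
  have hord : 2 * P.ord u = ∑ i, P.ord (ev z (l i)) := by
    rw [← ord_prod P _ _ (fun i _ => hzne _ (hl0 i)), ← hu2, P.ord_pow]
    push_cast
    rfl
  have hform : Del D₁ D₂ (gp x y) * (MvPolynomial.aeval (gp x y) Q / v) =
      Del D₁ D₂ z * MvPolynomial.aeval z Q / u := by
    have h3 : MvPolynomial.aeval z Q = c ^ (d - 3) * MvPolynomial.aeval (gp x y) Q := by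
      have h4 := Pool.Agent.Helper397.HK.aeval_smul_of_homog hQ c (gp x y)
      rw [← h4]
      congr 2
    rw [h3, hz, Del_smul, hu]
    obtain ⟨e, rfl⟩ : ∃ e, d = e + 3 := ⟨d - 3, by omega⟩
    rw [Nat.add_sub_cancel]
    field_simp
    ring
  rw [hform]
  -- the order of the denominator
  have hthr : ∑ i, P.ord (ev z (l i)) = ∑ i ∈ thr l (WP P z), P.ord (ev z (l i)) := by
    symm
    apply Finset.sum_subset (Finset.subset_univ _)
    intro i _ hi
    rw [mem_thr] at hi
    exact ord_of_notMem hzreg hi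
  have hWfin : Module.finrank ℂ (WP P z) ≤ 2 := by
    have he₀ : (Pi.single i₀ 1 : V3) ∉ WP P z := by
      intro h
      rw [mem_WP, ev_single] at h
      rcases h with h | h
      · exact mul_ne_zero hc (hgp i₀) (by rw [hz] at h; exact h)
      · omega
    have h1 : WP P z < ⊤ := lt_top_iff_ne_top.2 fun h => he₀ (by rw [h]; trivial)
    have h2 := Submodule.finrank_lt_finrank_of_lt h1
    rw [finrank_top] at h2
    have h3 : Module.finrank ℂ V3 = 3 := by simp
    omega
  have hQm := hmult (WP P z) hWfin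
  obtain ⟨r, hr⟩ : ∃ r, r = (thr l (WP P z)).card := ⟨_, rfl⟩
  rw [← hr] at hQm
  by_cases hW : WP P z = ⊥
  · -- no linear form is positive
    have h3 : thr l (WP P z) = ∅ := by
      rw [Finset.eq_empty_iff_forall_notMem]
      intro i hi
      rw [mem_thr, hW, Submodule.mem_bot] at hi
      exact hl0 i hi
    rw [hthr, h3, Finset.sum_empty] at hord
    have h4 : P.ord u = 0 := by omega
    have h5 : Ge P 0 u⁻¹ := Or.inr (by rw [P.ord_inv, h4, neg_zero])
    have h6 := ge_Del_zero h₁ h₂ hzreg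
    have h7 : Ge P 0 (MvPolynomial.aeval z Q) := by
      have := ge_of_mem_pow hzreg (W := (⊥ : Submodule ℂ V3)) (a := 0) (m := 0) (Q := Q)
        (fun w hw => by
          rw [(Submodule.mem_bot ℂ).1 hw, ev_zero]
          exact Ge.zero) (by rw [pow_zero, Ideal.one_eq_top]; trivial)
      simpa using this
    rw [div_eq_mul_inv]
    exact ((h6.mul h7).mul h5).mono (by omega)
  · obtain ⟨b, hb, hb0, ha0, hab, hb1, hmin, hmax⟩ := exists_coords hzreg hzne hzi₀ hW
    obtain ⟨α, hα⟩ : ∃ α, α = P.ord (ev z (b 1)) := ⟨_, rfl⟩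
    obtain ⟨β, hβ⟩ : ∃ β, β = P.ord (ev z (b 2)) := ⟨_, rfl⟩
    rw [← hα] at ha0 hab hmin hmax
    rw [← hβ] at hab hb1
    have hbne : ∀ j, ev z (b j) ≠ 0 := fun j => hzne _ (hb.ne_zero j)
    -- the numerator
    have h3 : Ge P (α + β - 1) (Del D₁ D₂ z) := by
      have h4 := ge_Del h₁ h₂ (z := fun j => ev z (b j)) hbne hb0
      rw [Del_basis] at h4
      have hdet : Matrix.det (Matrix.of b) ≠ 0 := by
        have h5 : LinearIndependent ℂ (Matrix.of b).row := hb
        have h6 := Matrix.linearIndependent_rows_iff_isUnit.1 h5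
        exact (Matrix.isUnit_iff_isUnit_det _).1 h6 |>.ne_zero
      have h7 := Ge.mul (Ge.const (P := P) (Matrix.det (Matrix.of b))⁻¹) h4
      rw [← mul_assoc, ← map_mul, inv_mul_cancel₀ hdet, map_one, one_mul, zero_add, ← hα,
        ← hβ] at h7
      exact h7
    have h4 : Ge P (((r / 2 - 1 : ℕ) : ℤ) * α) (MvPolynomial.aeval z Q) := by
      refine ge_of_mem_pow hzreg ?_ hQm
      intro w hw
      by_cases hw0 : w = 0
      · rw [hw0, ev_zero]
        exact Ge.zero
      · exact Or.inr (hmin w hw hw0)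
    -- the denominator
    have h5 : 2 * P.ord u ≤ r * α + (β - α) := by
      rw [hord, hthr]
      have h6 : ∀ i ∈ thr l (WP P z), P.ord (ev z (l i)) ≤
          α + if l i ∈ Submodule.span ℂ {b 2} then β - α else 0 := by
        intro i hi
        rw [mem_thr] at hi
        by_cases h7 : l i ∈ Submodule.span ℂ {b 2}
        · rw [if_pos h7]
          obtain ⟨t, ht⟩ := Submodule.mem_span_singleton.1 h7
          have ht0 : t ≠ 0 := by
            rintro rfl
            rw [zero_smul] at ht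
            exact hl0 i ht.symm
          rw [← ht, ev_smul, P.ord_mul ((map_ne_zero _).2 ht0) (hbne 2), P.ord_const ht0, ← hβ]
          omega
        · rw [if_neg h7]
          have := hmax _ hi h7
          omega
      have h8 : ((thr l (WP P z)).filter fun i => l i ∈ Submodule.span ℂ {b 2}).card ≤ 1 := by
        rw [Finset.card_le_one]
        intro i hi j hj
        by_contra hij
        rw [Finset.mem_filter] at hi hj
        obtain ⟨s, hs⟩ := Submodule.mem_span_singleton.1 hi.2
        obtain ⟨t, ht⟩ := Submodule.mem_span_singleton.1 hj.2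
        have h9 := LinearIndependent.pair_iff.1 (hl i j hij) t (-s) (by
          rw [← hs, ← ht, smul_smul, neg_smul, smul_smul, mul_comm t s, add_neg_cancel])
        apply hl0 j
        rw [← ht, h9.1, zero_smul]
      calc ∑ i ∈ thr l (WP P z), P.ord (ev z (l i)) ≤ ∑ i ∈ thr l (WP P z),
            (α + if l i ∈ Submodule.span ℂ {b 2} then β - α else 0) := Finset.sum_le_sum h6
        _ = r * α + ((thr l (WP P z)).filter fun i => l i ∈ Submodule.span ℂ {b 2}).card *
              (β - α) := by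
            rw [Finset.sum_add_distrib, Finset.sum_const, ← Finset.sum_filter, Finset.sum_const, hr]
            simp only [nsmul_eq_mul]
        _ ≤ r * α + (β - α) := by
            have h9 : (((thr l (WP P z)).filter fun i => l i ∈ Submodule.span ℂ {b 2}).card : ℤ) ≤ 1 := by
              exact_mod_cast h8
            have h10 : 0 ≤ β - α := by omega
            nlinarith
    have h11 := h3.mul h4
    have h12 : P.ord u ≤ α + β - 1 + ((r / 2 - 1 : ℕ) : ℤ) * α := by
      have h13 : (r : ℤ) ≤ 2 * ((r / 2 - 1 : ℕ) : ℤ) + 3 := by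
        have : r ≤ 2 * (r / 2 - 1) + 3 := by omega
        exact_mod_cast this
      have h14 : (r : ℤ) * α ≤ (2 * ((r / 2 - 1 : ℕ) : ℤ) + 3) * α :=
        mul_le_mul_of_nonneg_right h13 ha0
      have h15 : (2 * ((r / 2 - 1 : ℕ) : ℤ) + 3) * α = 2 * (((r / 2 - 1 : ℕ) : ℤ) * α) + 3 * α := by
        ring
      omega
    have h16 : Ge P (-P.ord u) u⁻¹ := Or.inr (by rw [P.ord_inv])
    rw [div_eq_mul_inv]
    exact (h11.mul h16).mono (by omega)

end Pool.Agent.J4H13.LA
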